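import Pool.Agent.Y75.Th.Norm

set_option autoImplicit false
set_option linter.unusedSectionVars false

/-! The final forms. -/

namespace Pool.Agent.Y75.Th

open Matrix TH57.Thr TH6.LF

variable {Γ : Type} [Group Γ]

theorem finsum_nsq (a b : MonoidAlgebra ℤ Γ) :
    ∑ᶠ g : Γ, (a.coeff g - b.coeff g⁻¹) ^ 2 = nsq (a - bar b) := by
  rw [finsum_eq_sum_of_support_subset (s := (a - bar b).coeff.support)]
  · rw [nsq_eq _ _ (Finset.Subset.refl _)]
    exact Finset.sum_congr rfl fun g _ => by rw [coeff_sub', coeff_bar]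
  · intro g hg
    rw [Function.mem_support] at hg
    rw [Finset.mem_coe, Finsupp.mem_support_iff, coeff_sub', coeff_bar]
    intro h
    exact hg (by rw [h]; norm_num)

theorem finsum_real (x : MonoidAlgebra ℝ Γ) :
    ∑ᶠ g : Γ, x.coeff g ^ 2 = ∑ g ∈ x.coeff.support, x.coeff g ^ 2 := by
  rw [finsum_eq_sum_of_support_subset]
  intro g hg
  rw [Function.mem_support] at hg
  rw [Finset.mem_coe, Finsupp.mem_support_iff]
  intro h
  exact hg (by rw [h]; norm_num)

theorem normLE_fin (n : ℕ) (A : Matrix (Fin n) (Fin n) (MonoidAlgebra ℤ Γ)) (c : ℝ)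
    (h : ∀ x : Fin n → MonoidAlgebra ℝ Γ,
      ∑ j, ∑ᶠ g : Γ, (∑ i, x i * MonoidAlgebra.mapRingHom Γ (Int.castRingHom ℝ) (A i j)).coeff g ^ 2
        ≤ c ^ 2 * ∑ i, ∑ᶠ g : Γ, (x i).coeff g ^ 2) : NormLE A c := by
  intro x
  have h1 := h x
  simp only [finsum_real] at h1
  exact h1

/-! The example. -/

abbrev C5 := Multiplicative (ZMod 5)

open Multiplicative

noncomputable def uu : MonoidAlgebra ℤ C5 :=
  MonoidAlgebra.single (ofAdd 1) 1 + MonoidAlgebra.single (ofAdd 4) 1 - MonoidAlgebra.single 1 1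

noncomputable def vv : MonoidAlgebra ℤ C5 :=
  MonoidAlgebra.single (ofAdd 2) 1 + MonoidAlgebra.single (ofAdd 3) 1 - MonoidAlgebra.single 1 1

theorem uv : uu * vv = 1 := by
  unfold uu vv
  simp only [add_mul, sub_mul, mul_add, mul_sub, MonoidAlgebra.single_mul_single, mul_one, one_mul]
  have h1 : (ofAdd 1 : C5) * ofAdd 2 = ofAdd 3 := rfl
  have h2 : (ofAdd 1 : C5) * ofAdd 3 = ofAdd 4 := rfl
  have h3 : (ofAdd 4 : C5) * ofAdd 2 = ofAdd 1 := rfl
  have h4 : (ofAdd 4 : C5) * ofAdd 3 = ofAdd 2 := rfl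
  rw [h1, h2, h3, h4, MonoidAlgebra.one_def]
  abel

theorem vu : vv * uu = 1 := by rw [mul_comm]; exact uv

/-- the unit as a matrix -/
noncomputable def um : (Matrix (Fin 1) (Fin 1) (MonoidAlgebra ℤ C5))ˣ where
  val := Matrix.of fun _ _ => uu
  inv := Matrix.of fun _ _ => vv
  val_inv := by
    ext1 i j
    rw [Subsingleton.elim i 0, Subsingleton.elim j 0]
    simp [Matrix.mul_apply, uv]
  inv_val := by
    ext1 i j
    rw [Subsingleton.elim i 0, Subsingleton.elim j 0]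
    simp [Matrix.mul_apply, vu]

theorem um_bound : ∑ᶠ g : C5, (uu.coeff g - vv.coeff g⁻¹) ^ 2 = 4 := by
  have h0 : ∀ g, (uu.coeff g - vv.coeff g⁻¹) ^ 2
      = ((if ofAdd 1 = g then (1:ℤ) else 0) + (if ofAdd 4 = g then 1 else 0)
        - (if 1 = g then 1 else 0) - ((if ofAdd 2 = g⁻¹ then 1 else 0)
        + (if ofAdd 3 = g⁻¹ then 1 else 0) - (if 1 = g⁻¹ then 1 else 0))) ^ 2 := by
    intro g
    simp only [uu, vv, MonoidAlgebra.coeff_sub, MonoidAlgebra.coeff_add, Finsupp.sub_apply,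
      Finsupp.add_apply, MonoidAlgebra.coeff_single, Finsupp.single_apply]
  rw [finsum_eq_sum_of_fintype, Finset.sum_congr rfl fun g _ => h0 g]
  decide

/-- the homomorphism to the field with 31 elements -/
noncomputable def ph : MonoidAlgebra ℤ C5 →+* ZMod 31 :=
  (MonoidAlgebra.lift ℤ (ZMod 31) C5
    { toFun := fun g => (2 : ZMod 31) ^ (toAdd g).val
      map_one' := by decide
      map_mul' := by decide }).toRingHom

theorem ph_single (g : C5) (z : ℤ) :
    ph (MonoidAlgebra.single g z) = (z : ZMod 31) * (2 : ZMod 31) ^ (toAdd g).val := by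
  change MonoidAlgebra.lift ℤ (ZMod 31) C5 _ (MonoidAlgebra.single g z) = _
  rw [MonoidAlgebra.lift_single, zsmul_eq_mul]
  rfl

theorem ph_uu : ph uu = 17 := by
  unfold uu
  rw [map_sub, map_add, ph_single, ph_single, ph_single]
  decide

/-- determinants of commutators -/
theorem det_comm {κ : Type} [Fintype κ] [DecidableEq κ]
    (C : (Matrix κ κ (MonoidAlgebra ℤ C5))ˣ)
    (hC : C ∈ commutator (Matrix κ κ (MonoidAlgebra ℤ C5))ˣ) :
    (ph.mapMatrix (C : Matrix κ κ (MonoidAlgebra ℤ C5))).det = 1 := by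
  have h1 := Abelianization.commutator_subset_ker
    ((Units.map (Matrix.detMonoidHom (n := κ) (R := ZMod 31))).comp
      (Units.map (ph.mapMatrix (m := κ)).toMonoidHom)) hC
  rw [MonoidHom.mem_ker] at h1
  exact congrArg Units.val h1

theorem um_nontrivial : ¬ ∃ (m : ℕ) (g : C5) (ε : ℤˣ)
      (C : (Matrix (Fin 1 ⊕ Fin (m + 1)) (Fin 1 ⊕ Fin (m + 1)) (MonoidAlgebra ℤ C5))ˣ),
      C ∈ commutator (Matrix (Fin 1 ⊕ Fin (m + 1)) (Fin 1 ⊕ Fin (m + 1))
              (MonoidAlgebra ℤ C5))ˣ ∧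
      Matrix.fromBlocks (↑um : Matrix (Fin 1) (Fin 1) (MonoidAlgebra ℤ C5))
          (0 : Matrix (Fin 1) (Fin (m + 1)) (MonoidAlgebra ℤ C5))
          (0 : Matrix (Fin (m + 1)) (Fin 1) (MonoidAlgebra ℤ C5))
          (1 : Matrix (Fin (m + 1)) (Fin (m + 1)) (MonoidAlgebra ℤ C5)) =
        Matrix.diagonal (fun i : Fin 1 ⊕ Fin (m + 1) =>
            if i = Sum.inr (0 : Fin (m + 1)) then
              (MonoidAlgebra.single g ((ε : ℤ)) : MonoidAlgebra ℤ C5) else 1) *
          (↑C : Matrix (Fin 1 ⊕ Fin (m + 1)) (Fin 1 ⊕ Fin (m + 1)) (MonoidAlgebra ℤ C5)) := by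
  rintro ⟨m, g, ε, C, hC, h⟩
  have h1 := congrArg (fun M => (ph.mapMatrix M).det) h
  rw [map_mul, Matrix.det_mul, det_comm C hC, mul_one] at h1
  have h2 : ph.mapMatrix (Matrix.fromBlocks (↑um : Matrix (Fin 1) (Fin 1) (MonoidAlgebra ℤ C5))
          (0 : Matrix (Fin 1) (Fin (m + 1)) (MonoidAlgebra ℤ C5))
          (0 : Matrix (Fin (m + 1)) (Fin 1) (MonoidAlgebra ℤ C5))
          (1 : Matrix (Fin (m + 1)) (Fin (m + 1)) (MonoidAlgebra ℤ C5)))
      = Matrix.fromBlocks (Matrix.of fun _ _ => ph uu) 0 0 1 := by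
    ext (i | i) (j | j)
    · rfl
    · simp
    · simp
    · simp [Matrix.one_apply, apply_ite ph]
  have h3 : ph.mapMatrix (Matrix.diagonal (fun i : Fin 1 ⊕ Fin (m + 1) =>
            if i = Sum.inr (0 : Fin (m + 1)) then
              (MonoidAlgebra.single g ((ε : ℤ)) : MonoidAlgebra ℤ C5) else 1))
      = Matrix.diagonal (fun i : Fin 1 ⊕ Fin (m + 1) =>
            if i = Sum.inr (0 : Fin (m + 1)) then ph (MonoidAlgebra.single g ((ε : ℤ))) else 1) := by
    rw [RingHom.mapMatrix_apply, Matrix.diagonal_map (map_zero ph)]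
    congr 1
    funext i
    split_ifs <;> simp
  rw [h2, h3, Matrix.det_fromBlocks_zero₂₁, Matrix.det_one, mul_one, Matrix.det_diagonal,
    Finset.prod_ite_eq' Finset.univ, if_pos (Finset.mem_univ _), ph_uu, ph_single] at h1
  simp only [Matrix.det_unique, Matrix.of_apply] at h1
  have h4 : ∀ g : C5, ∀ z : ℤˣ, (17 : ZMod 31) ≠ ((z : ℤ) : ZMod 31) * 2 ^ (toAdd g).val := by
    intro g z
    rcases Int.units_eq_one_or z with rfl | rfl
    · revert g; decide
    · revert g; decide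
  exact h4 g ε h1

end Pool.Agent.Y75.Th
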