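import Pool.Agent.Y75.Th.Init
import Pool.Agent.TH6.LF.Form1

set_option autoImplicit false
set_option linter.unusedSectionVars false

/-! Operator norms: if `A` and its inverse have norm less than `1 + √2`, the bounds hold. -/

namespace Pool.Agent.Y75.Th

open Matrix TH57.Thr TH6.LF

variable {Γ : Type} [Group Γ] {κ : Type} [Fintype κ] [DecidableEq κ]

theorem NormLE_adj (A : Matrix κ κ (MonoidAlgebra ℤ Γ)) (c : ℝ) (hc : 0 < c) (h : NormLE A c) :
    NormLE (adj A) c := by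
  apply normLE_of_ip _ _ hc
  intro v v'
  rw [toReal_adj, ip_vecMul, adj_adj]
  have h1 := two_ip_le v (v' ᵥ* toReal A) c hc
  have h2 := mul_le_mul_of_nonneg_left (h v') (inv_nonneg.2 hc.le)
  have h3 : c⁻¹ * (c ^ 2 * normSq v') = c * normSq v' := by field_simp
  rw [h3] at h2
  linarith

theorem normSq_comb (x y : κ → MonoidAlgebra ℝ Γ) (r s : ℝ) :
    normSq (r • x + s • y) = r ^ 2 * normSq x + 2 * (r * s) * ip x y + s ^ 2 * normSq y := by
  rw [← ip_self, ip_add_left, ip_add_right, ip_add_right, ip_smul_left, ip_smul_left,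
    ip_smul_left, ip_smul_left, ip_smul_right, ip_smul_right, ip_smul_right, ip_smul_right,
    ip_self, ip_self, ip_comm y x]
  ring

theorem norm_pair (A A' : Matrix κ κ (MonoidAlgebra ℤ Γ)) (h1 : A * A' = 1) (h2 : A' * A = 1)
    (M : ℝ) (hM : 1 < M) (hA : NormLE A M) (hA' : NormLE A' M) (x : κ → MonoidAlgebra ℝ Γ) :
    normSq (x ᵥ* toReal A) + normSq (x ᵥ* toReal (adj A')) ≤ (M ^ 2 + (M ^ 2)⁻¹) * normSq x := by
  have hM0 : 0 < M := by linarith
  have nA := NormLE_adj A M hM0 hA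
  have nC := NormLE_adj A' M hM0 hA'
  -- matrices
  have e1 : toReal (adj A') * toReal (adj A) = 1 := by
    rw [← toReal_mul, ← adj_mul, h1, adj_one, toReal_one]
  have e2 : toReal (adj A) * toReal (adj A') = 1 := by
    rw [← toReal_mul, ← adj_mul, h2, adj_one, toReal_one]
  have e3 : toReal A * toReal A' = 1 := by rw [← toReal_mul, h1, toReal_one]
  set xA := x ᵥ* toReal A with hxA
  set xC := x ᵥ* toReal (adj A') with hxC
  set xT := xA ᵥ* toReal (adj A) with hxT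
  have i1 : ip x xT = normSq xA := by
    rw [hxT, toReal_adj, ← ip_vecMul, ip_self]
  have i2 : ip xA xC = normSq x := by
    rw [hxC, toReal_adj, ← ip_vecMul, hxA, Matrix.vecMul_vecMul, e3, Matrix.vecMul_one, ip_self]
  have m1 : xT ᵥ* toReal (adj A') = xA := by
    rw [hxT, Matrix.vecMul_vecMul, e2, Matrix.vecMul_one]
  have m2 : xC ᵥ* toReal (adj A) = x := by
    rw [hxC, Matrix.vecMul_vecMul, e1, Matrix.vecMul_one]
  have m3 : xA ᵥ* toReal (adj A) = xT := rfl
  -- the first inequality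
  have t1 := nC (M ^ 2 • x + (-1 : ℝ) • xT)
  rw [Matrix.add_vecMul, Matrix.smul_vecMul, Matrix.smul_vecMul, m1, ← hxC, normSq_comb,
    normSq_comb, i1, ip_comm xC xA, i2] at t1
  -- the second inequality
  have t2 := nA ((1 : ℝ) • xA + (-(M ^ 2)⁻¹) • xC)
  rw [Matrix.add_vecMul, Matrix.smul_vecMul, Matrix.smul_vecMul, m2, m3, normSq_comb,
    normSq_comb, i2, ip_comm xT x, i1] at t2
  have hq : 0 < M ^ 2 := by positivity
  set q := M ^ 2 with hqd
  have hq1 : 1 < q := by rw [hqd]; nlinarith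
  have hqi : q * q⁻¹ = 1 := mul_inv_cancel₀ hq.ne'
  set p := q⁻¹ with hp
  have hp0 : 0 < p := by rw [hp]; positivity
  have hp1 : p < 1 := by nlinarith
  -- multiply the first one by `p`
  have t3 := mul_le_mul_of_nonneg_left t1 hp0.le
  have e4 : p * (q * (q ^ 2 * normSq x + 2 * (q * -1) * normSq xA + (-1) ^ 2 * normSq xT))
      = q ^ 2 * normSq x - 2 * q * normSq xA + normSq xT := by
    have : p * (q * (q ^ 2 * normSq x + 2 * (q * -1) * normSq xA + (-1) ^ 2 * normSq xT))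
      = (q * p) * (q ^ 2 * normSq x - 2 * q * normSq xA + normSq xT) := by ring
    rw [this, hqi, one_mul]
  have e5 : p * (q ^ 2 * normSq xC + 2 * (q * -1) * normSq x + (-1) ^ 2 * normSq xA)
      = q * normSq xC - 2 * normSq x + p * normSq xA := by
    have : p * (q ^ 2 * normSq xC + 2 * (q * -1) * normSq x + (-1) ^ 2 * normSq xA)
      = (q * p) * q * normSq xC - 2 * (q * p) * normSq x + p * normSq xA := by ring
    rw [this, hqi]; ring
  rw [e4, e5] at t3
  have e6 : q * (1 ^ 2 * normSq xA + 2 * (1 * -p) * normSq x + (-p) ^ 2 * normSq xC)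
      = q * normSq xA - 2 * normSq x + p * normSq xC := by
    have : q * (1 ^ 2 * normSq xA + 2 * (1 * -p) * normSq x + (-p) ^ 2 * normSq xC)
      = q * normSq xA - 2 * (q * p) * normSq x + (q * p) * p * normSq xC := by ring
    rw [this, hqi]; ring
  rw [e6] at t2
  have key : 0 ≤ (q - p) * ((q + p) * normSq x - (normSq xA + normSq xC)) := by
    nlinarith
  have hqp : 0 < q - p := by linarith
  have := nonneg_of_mul_nonneg_right key hqp
  linarith

theorem normSq_row (A : Matrix κ κ (MonoidAlgebra ℤ Γ)) (i : κ) :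
    normSq (Pi.single i (1 : MonoidAlgebra ℝ Γ) ᵥ* toReal A) = ((N fun j => A i j : ℤ) : ℝ) := by
  rw [Matrix.single_one_vecMul]
  unfold normSq N
  rw [Int.cast_sum]
  refine Finset.sum_congr rfl fun j _ => ?_
  have h1 : ∀ g, (toReal A i j).coeff g = (((A i j).coeff g : ℤ) : ℝ) := by
    intro g
    simp [toReal, MonoidAlgebra.coeff_mapRingHom]
  rw [nsq_eq (A i j) _ (Finset.Subset.refl _), Int.cast_sum]
  change ∑ g ∈ (toReal A i j).coeff.support, (toReal A i j).coeff g ^ 2 = _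
  rw [sum_sq_of_support_subset (toReal A i j) (A i j).coeff.support]
  · exact Finset.sum_congr rfl fun g _ => by rw [h1]; push_cast; ring
  · intro g hg
    rw [Finsupp.mem_support_iff, h1] at hg
    rw [Finsupp.mem_support_iff]
    intro h
    rw [h] at hg
    exact hg Int.cast_zero

theorem normSq_single (i : κ) :
    normSq (Pi.single i (1 : MonoidAlgebra ℝ Γ) : κ → MonoidAlgebra ℝ Γ) = 1 := by
  rw [← ip_self]
  unfold ip
  rw [Finset.sum_eq_single i]
  · simp [MonoidAlgebra.one_def]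
  · intro j _ hj
    rw [Pi.single_eq_of_ne hj, zero_mul]
  · intro h
    exact absurd (Finset.mem_univ i) h

/-- the row norms of `A - (A*)⁻¹` -/
theorem N_sub (A A' : Matrix κ κ (MonoidAlgebra ℤ Γ)) (h1 : A * A' = 1) (i : κ) :
    N (fun j => A i j - adj A' i j) = N (fun j => A i j) + N (fun j => adj A' i j) - 2 := by
  have h2 : ((A * A') i i).coeff 1 = 1 := by
    rw [h1, Matrix.one_apply_eq, MonoidAlgebra.one_def, MonoidAlgebra.coeff_single]; simp
  rw [Matrix.mul_apply, MonoidAlgebra.coeff_sum, Finsupp.finsetSum_apply] at h2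
  unfold N
  have h3 : ∀ j, nsq (A i j - adj A' i j) = nsq (A i j) + nsq (adj A' i j)
      - 2 * (A i j * A' j i).coeff 1 := by
    intro j
    rw [sub_eq_add_neg, nsq_add, nsq_neg, bar_neg, mul_neg, MonoidAlgebra.coeff_neg,
      Finsupp.neg_apply, adj_apply, bar_bar]
    ring
  rw [Finset.sum_congr rfl fun j _ => h3 j, Finset.sum_sub_distrib, Finset.sum_add_distrib,
    ← Finset.mul_sum, h2]
  ring

theorem row_bound (A A' : Matrix κ κ (MonoidAlgebra ℤ Γ)) (h1 : A * A' = 1) (h2 : A' * A = 1)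
    (c : ℝ) (hc0 : 0 < c) (hc : c < 1 + Real.sqrt 2) (hA : NormLE A c) (hA' : NormLE A' c)
    (i : κ) : N (fun j => A i j - adj A' i j) ≤ 3 := by
  have hs : Real.sqrt 2 ^ 2 = 2 := Real.sq_sqrt (by norm_num)
  have hs1 : 1 < Real.sqrt 2 := by
    rw [show (1 : ℝ) = Real.sqrt 1 by simp]
    exact Real.sqrt_lt_sqrt (by norm_num) (by norm_num)
  set r := Real.sqrt 2 with hr
  obtain ⟨M, hM1, hM2, hM3⟩ : ∃ M : ℝ, 1 < M ∧ c ≤ M ∧ M < 1 + r :=
    ⟨(c + 1 + r) / 2, by linarith, by linarith, by linarith⟩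
  have up : ∀ B : Matrix κ κ (MonoidAlgebra ℤ Γ), NormLE B c → NormLE B M := fun B hB x =>
    le_trans (hB x) (mul_le_mul_of_nonneg_right (pow_le_pow_left₀ hc0.le hM2 2) (normSq_nonneg _))
  have h3 := norm_pair A A' h1 h2 M hM1 (up A hA) (up A' hA') (Pi.single i 1)
  rw [normSq_row, normSq_row, normSq_single, mul_one] at h3
  have h4 : M ^ 2 + (M ^ 2)⁻¹ < 6 := by
    have hM0 : 0 < M := by linarith
    have hq : 0 < M ^ 2 := by positivity
    have h5 : M ^ 2 < 3 + 2 * r := by nlinarith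
    have h6 : 1 < M ^ 2 := by nlinarith
    have h7 : (M ^ 2 - (3 + 2 * r)) * (M ^ 2 - (3 - 2 * r)) < 0 := by
      apply mul_neg_of_neg_of_pos
      · linarith
      · linarith
    have h8 : M ^ 2 * (M ^ 2 + (M ^ 2)⁻¹) < M ^ 2 * 6 := by
      rw [mul_add, mul_inv_cancel₀ hq.ne']
      nlinarith
    exact lt_of_mul_lt_mul_left h8 hq.le
  have h5 : ((N (fun j => A i j) + N (fun j => adj A' i j) : ℤ) : ℝ) < ((6 : ℤ) : ℝ) := by
    push_cast
    exact lt_of_le_of_lt h3 h4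
  have h6 := Int.cast_lt.1 h5
  rw [N_sub A A' h1]
  omega

/-- **small norms** -/
theorem TT_of_norms (A : (Matrix κ κ (MonoidAlgebra ℤ Γ))ˣ) (c : ℝ) (hc0 : 0 < c)
    (hc : c < 1 + Real.sqrt 2) (hA : NormLE (A : Matrix κ κ (MonoidAlgebra ℤ Γ)) c)
    (hA' : NormLE (↑A⁻¹ : Matrix κ κ (MonoidAlgebra ℤ Γ)) c) : TT (TU Γ) A := by
  apply TT_of_bounds A _ rfl
  · intro i
    have := row_bound _ _ A.mul_inv A.inv_mul c hc0 hc hA hA' i
    omega
  · intro j
    have h1 := row_bound (adj (A : Matrix κ κ (MonoidAlgebra ℤ Γ)))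
      (adj (↑A⁻¹ : Matrix κ κ (MonoidAlgebra ℤ Γ)))
      (by rw [← adj_mul, A.inv_mul, adj_one]) (by rw [← adj_mul, A.mul_inv, adj_one]) c hc0 hc
      (NormLE_adj _ c hc0 hA) (NormLE_adj _ c hc0 hA') j
    have h2 : N (fun i => (A : Matrix κ κ (MonoidAlgebra ℤ Γ)) i j
        - adj (↑A⁻¹ : Matrix κ κ (MonoidAlgebra ℤ Γ)) i j)
        = N (fun i => adj (A : Matrix κ κ (MonoidAlgebra ℤ Γ)) j i
          - adj (adj (↑A⁻¹ : Matrix κ κ (MonoidAlgebra ℤ Γ))) j i) := by
      refine Finset.sum_congr rfl fun i _ => ?_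
      change nsq _ = nsq (bar _ - bar _)
      rw [← bar_sub, nsq_bar]
    rw [h2]
    exact h1

/-- the transposed bounds -/
theorem TT_of_bounds' (A : (Matrix κ κ (MonoidAlgebra ℤ Γ))ˣ)
    (C : Matrix κ κ (MonoidAlgebra ℤ Γ))
    (hC : C = adj (↑A⁻¹ : Matrix κ κ (MonoidAlgebra ℤ Γ)))
    (hrow : ∀ i, N (fun j => (A : Matrix κ κ (MonoidAlgebra ℤ Γ)) i j - C i j) ≤ 3)
    (hcol : ∀ j, N (fun i => (A : Matrix κ κ (MonoidAlgebra ℤ Γ)) i j - C i j) ≤ 4) :
    TT (TU Γ) A := by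
  have h1 : TT (TU Γ) (adU κ A⁻¹) := by
    apply TT_of_bounds _ _ rfl
    · intro i
      have h2 := hcol i
      have h3 : N (fun j => (adU κ A⁻¹ : Matrix κ κ (MonoidAlgebra ℤ Γ)) i j
          - adj (↑(adU κ A⁻¹)⁻¹ : Matrix κ κ (MonoidAlgebra ℤ Γ)) i j)
          = N (fun j => (A : Matrix κ κ (MonoidAlgebra ℤ Γ)) j i - C j i) := by
        refine Finset.sum_congr rfl fun j _ => ?_
        rw [hC]
        change nsq (bar ((A⁻¹⁻¹ : (Matrix κ κ (MonoidAlgebra ℤ Γ))ˣ).val j i)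
          - bar (bar ((A⁻¹ : (Matrix κ κ (MonoidAlgebra ℤ Γ))ˣ).val i j)))
          = nsq (_ - bar ((A⁻¹ : (Matrix κ κ (MonoidAlgebra ℤ Γ))ˣ).val i j))
        rw [← bar_sub, nsq_bar, inv_inv]
      rw [h3]; exact h2
    · intro i
      have h2 := hrow i
      have h3 : N (fun j => (adU κ A⁻¹ : Matrix κ κ (MonoidAlgebra ℤ Γ)) j i
          - adj (↑(adU κ A⁻¹)⁻¹ : Matrix κ κ (MonoidAlgebra ℤ Γ)) j i)
          = N (fun j => (A : Matrix κ κ (MonoidAlgebra ℤ Γ)) i j - C i j) := by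
        refine Finset.sum_congr rfl fun j _ => ?_
        rw [hC]
        change nsq (bar ((A⁻¹⁻¹ : (Matrix κ κ (MonoidAlgebra ℤ Γ))ˣ).val i j)
          - bar (bar ((A⁻¹ : (Matrix κ κ (MonoidAlgebra ℤ Γ))ˣ).val j i)))
          = nsq (_ - bar ((A⁻¹ : (Matrix κ κ (MonoidAlgebra ℤ Γ))ˣ).val j i))
        rw [← bar_sub, nsq_bar, inv_inv]
      rw [h3]; exact h2
  have h2 := TT_inv _ _ (TT_adU _ h1)
  convert h2 using 1
  rw [eq_comm, inv_eq_iff_eq_inv]
  apply Units.ext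
  rw [adU_val]
  change adj (adj (A⁻¹ : (Matrix κ κ (MonoidAlgebra ℤ Γ))ˣ).val) = _
  rw [adj_adj]

end Pool.Agent.Y75.Th
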