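import Pool.Agent.Y75.Th.Piv

set_option autoImplicit false
set_option linter.unusedSectionVars false

/-! The pivoting induction. -/

namespace Pool.Agent.Y75.Th

open Matrix TH57.Thr TH6.LF

variable {Γ : Type} [Group Γ] {κ : Type} [Fintype κ] [DecidableEq κ]

/-- the squared norm of a vector -/
def N (f : κ → MonoidAlgebra ℤ Γ) : ℤ := ∑ j, nsq (f j)

theorem N_nonneg (f : κ → MonoidAlgebra ℤ Γ) : 0 ≤ N f :=
  Finset.sum_nonneg fun _ _ => nsq_nonneg _

theorem nsq_le_N (f : κ → MonoidAlgebra ℤ Γ) (j : κ) : nsq (f j) ≤ N f :=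
  Finset.single_le_sum (f := fun j => nsq (f j)) (fun _ _ => nsq_nonneg _) (Finset.mem_univ j)

theorem N_eq_zero {f : κ → MonoidAlgebra ℤ Γ} (h : N f = 0) (j : κ) : f j = 0 := by
  have h1 := nsq_le_N f j
  have h2 := nsq_nonneg (f j)
  exact nsq_eq_zero (by omega)

theorem two_nsq_le_N (f : κ → MonoidAlgebra ℤ Γ) (j k : κ) (h : j ≠ k) :
    nsq (f j) + nsq (f k) ≤ N f := by
  have h2 := Finset.sum_le_sum_of_subset_of_nonneg (Finset.subset_univ ({j, k} : Finset κ))
    (f := fun j => nsq (f j)) (fun _ _ _ => nsq_nonneg _)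
  rw [Finset.sum_pair h] at h2
  exact h2

theorem three_nsq_le_N (f : κ → MonoidAlgebra ℤ Γ) (j k l : κ) (h : j ≠ k) (h2 : j ≠ l)
    (h3 : k ≠ l) : nsq (f j) + nsq (f k) + nsq (f l) ≤ N f := by
  have h2 := Finset.sum_le_sum_of_subset_of_nonneg (Finset.subset_univ ({j, k, l} : Finset κ))
    (f := fun j => nsq (f j)) (fun _ _ _ => nsq_nonneg _)
  rw [Finset.sum_insert (by simp [*]), Finset.sum_pair h3, ← add_assoc] at h2
  exact h2

theorem N_one {f : κ → MonoidAlgebra ℤ Γ} (h : N f = 1) :
    ∃ k c e, e ^ 2 = 1 ∧ f k = MonoidAlgebra.single c e ∧ ∀ j, j ≠ k → f j = 0 := by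
  obtain ⟨k, hk⟩ : ∃ k, f k ≠ 0 := by
    by_contra hcon
    push Not at hcon
    have : N f = 0 := Finset.sum_eq_zero fun j _ => by rw [hcon j, nsq_zero]
    omega
  have h1 := one_le_nsq hk
  have h2 := nsq_le_N f k
  obtain ⟨c, e, he, hc⟩ := eq_single_of_nsq_one (le_antisymm (h ▸ h2) h1)
  refine ⟨k, c, e, he, hc, fun j hj => ?_⟩
  have h3 := two_nsq_le_N f j k hj
  have h4 := nsq_nonneg (f j)
  exact nsq_eq_zero (by omega)

theorem nsq_one_sub (y : MonoidAlgebra ℤ Γ) (h : y.coeff 1 = 0) : nsq (1 - y) = 1 + nsq y := by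
  rw [sub_eq_add_neg, nsq_add, nsq_neg, one_mul, coeff_bar, MonoidAlgebra.one_def, nsq_single]
  simp [h]

theorem nsq_na (M : Matrix κ κ (MonoidAlgebra ℤ Γ)) (i j : κ) :
    nsq ((-adj M) i j) = nsq (M j i) := by
  rw [Matrix.neg_apply, nsq_neg, adj_apply, nsq_bar]

theorem N_na_row (M : Matrix κ κ (MonoidAlgebra ℤ Γ)) (l : κ) :
    N (fun a => (-adj M) l a) = N (fun a => M a l) :=
  Finset.sum_congr rfl fun j _ => nsq_na M l j

theorem N_na_col (M : Matrix κ κ (MonoidAlgebra ℤ Γ)) (l : κ) :
    N (fun a => (-adj M) a l) = N (fun a => M l a) :=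
  Finset.sum_congr rfl fun j _ => nsq_na M j l

theorem N_neg_col (M : Matrix κ κ (MonoidAlgebra ℤ Γ)) (l : κ) :
    N (fun a => (-M) a l) = N (fun a => M a l) :=
  Finset.sum_congr rfl fun _ _ => nsq_neg _

/-- the normal form: the equations -/
structure NE (X Z : Matrix κ κ (MonoidAlgebra ℤ Γ)) : Prop where
  z1 : X - Z = X * Z
  z2 : X - Z = Z * X
  dX : ∀ i, (X i i).coeff 1 = 0
  dZ : ∀ i, (Z i i).coeff 1 = 0

theorem NE.e1 {X Z : Matrix κ κ (MonoidAlgebra ℤ Γ)} (h : NE X Z) (p q : κ) :
    X p q - Z p q = ∑ x, X p x * Z x q := by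
  have := congrFun (congrFun h.z1 p) q
  rwa [Matrix.sub_apply, Matrix.mul_apply] at this

theorem NE.e2 {X Z : Matrix κ κ (MonoidAlgebra ℤ Γ)} (h : NE X Z) (p q : κ) :
    X p q - Z p q = ∑ x, Z p x * X x q := by
  have := congrFun (congrFun h.z2 p) q
  rwa [Matrix.sub_apply, Matrix.mul_apply] at this

theorem NE.neg {X Z : Matrix κ κ (MonoidAlgebra ℤ Γ)} (h : NE X Z) : NE (-Z) (-X) where
  z1 := by rw [neg_mul_neg, ← h.z2]; abel
  z2 := by rw [neg_mul_neg, ← h.z1]; abel
  dX i := by rw [Matrix.neg_apply, MonoidAlgebra.coeff_neg, Finsupp.neg_apply, h.dZ, neg_zero]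
  dZ i := by rw [Matrix.neg_apply, MonoidAlgebra.coeff_neg, Finsupp.neg_apply, h.dX, neg_zero]

theorem NE.ad {X Z : Matrix κ κ (MonoidAlgebra ℤ Γ)} (h : NE X Z) :
    NE (-adj Z) (-adj X) where
  z1 := by rw [neg_mul_neg, ← adj_mul, ← h.z1, adj_sub]; abel
  z2 := by rw [neg_mul_neg, ← adj_mul, ← h.z2, adj_sub]; abel
  dX i := by
    rw [Matrix.neg_apply, MonoidAlgebra.coeff_neg, Finsupp.neg_apply, coeff_adj, inv_one, h.dZ,
      neg_zero]
  dZ i := by
    rw [Matrix.neg_apply, MonoidAlgebra.coeff_neg, Finsupp.neg_apply, coeff_adj, inv_one, h.dX,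
      neg_zero]

/-- a column of norm one -/
theorem NE.col_one {X Z : Matrix κ κ (MonoidAlgebra ℤ Γ)} (h : NE X Z) (i : κ)
    (h1 : N (fun a => X a i) = 1) : ∃ k c e, k ≠ i ∧ e ^ 2 = 1 ∧ X k i = MonoidAlgebra.single c e ∧
      (∀ j, j ≠ k → X j i = 0) ∧ (∀ j, Z j i = X j i - Z j k * MonoidAlgebra.single c e) ∧
      N (fun a => Z a i) = 1 + N (fun a => Z a k) := by
  obtain ⟨k, c, e, he, hk, ho⟩ := N_one h1
  have hZ : ∀ j, Z j i = X j i - Z j k * MonoidAlgebra.single c e := by
    intro j
    have h2 := h.e2 j i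
    rw [Finset.sum_eq_single k (fun b _ hb => by rw [ho b hb, mul_zero])
      (fun hk => absurd (Finset.mem_univ k) hk), hk] at h2
    rw [← h2]; abel
  have hN : N (fun a => Z a i) = 1 + N (fun a => Z a k) := by
    have h3 : ∀ j, nsq (Z j i) = (if j = k then 1 else 0) + nsq (Z j k) := by
      intro j
      by_cases hj : j = k
      · subst hj
        rw [if_pos rfl, hZ, hk]
        have : MonoidAlgebra.single c e - Z j j * MonoidAlgebra.single c e
            = (1 - Z j j) * MonoidAlgebra.single c e := by rw [sub_mul, one_mul]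
        rw [this, nsq_mul_single c e he, nsq_one_sub _ (h.dZ j)]
      · rw [if_neg hj, hZ, ho j hj, zero_sub, nsq_neg, nsq_mul_single c e he, zero_add]
    unfold N
    rw [Finset.sum_congr rfl fun j _ => h3 j, Finset.sum_add_distrib]
    simp
  refine ⟨k, c, e, ?_, he, hk, ho, hZ, hN⟩
  rintro rfl
  omega

/-- the normal form -/
structure NF (X Z : Matrix κ κ (MonoidAlgebra ℤ Γ)) : Prop extends NE X Z where
  bX : ∀ i j g, (X i j).coeff g ^ 2 ≤ 1
  bZ : ∀ i j g, (Z i j).coeff g ^ 2 ≤ 1
  dj : ∀ i j g, (X i j).coeff g * (Z j i).coeff g⁻¹ = 0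
  rows : ∀ i, N (fun j => X i j) + N (fun j => Z j i) ≤ 4
  cols : ∀ i, N (fun a => X a i) + N (fun a => Z i a) ≤ 3

theorem NF.ad {X Z : Matrix κ κ (MonoidAlgebra ℤ Γ)} (h : NF X Z) :
    NF (-adj Z) (-adj X) where
  toNE := h.toNE.ad
  bX i j g := by
    rw [Matrix.neg_apply, MonoidAlgebra.coeff_neg, Finsupp.neg_apply, coeff_adj, neg_sq]
    exact h.bZ _ _ _
  bZ i j g := by
    rw [Matrix.neg_apply, MonoidAlgebra.coeff_neg, Finsupp.neg_apply, coeff_adj, neg_sq]
    exact h.bX _ _ _
  dj i j g := by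
    rw [Matrix.neg_apply, MonoidAlgebra.coeff_neg, Finsupp.neg_apply, coeff_adj, Matrix.neg_apply,
      MonoidAlgebra.coeff_neg, Finsupp.neg_apply, coeff_adj, neg_mul_neg, inv_inv, mul_comm]
    exact h.dj _ _ _
  rows i := by
    have h1 := h.rows i
    rw [N_na_row, N_na_col]; omega
  cols i := by
    have h1 := h.cols i
    rw [N_na_row, N_na_col]; omega

theorem N_spl (i : κ) (f : κ → MonoidAlgebra ℤ Γ) :
    N f = nsq (f i) + N (fun x : {x : κ // x ≠ i} => f x) := sum_spl i _

theorem N_res_le (i : κ) (f : κ → MonoidAlgebra ℤ Γ) :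
    N (fun x : {x : κ // x ≠ i} => f x) ≤ N f := by
  have h1 := N_spl i f
  have h2 := nsq_nonneg (f i)
  omega

theorem N_mono (f : κ → MonoidAlgebra ℤ Γ) (g : κ → MonoidAlgebra ℤ Γ)
    (h : ∀ j, nsq (f j) ≤ nsq (g j)) : N f ≤ N g := Finset.sum_le_sum fun j _ => h j

/-- deleting an index -/
theorem NF.del {X Z : Matrix κ κ (MonoidAlgebra ℤ Γ)} (h : NF X Z) (i : κ)
    (hi : (∀ a, X a i = 0) ∨ (∀ b, X i b = 0)) : NF (pivX X i) (resZ Z i) := by
  have hii : X i i = 0 := by rcases hi with hi | hi <;> exact hi i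
  have hp : ∀ a b, pivX X i a b = X a b := by
    intro a b
    have : X a i * X i b = 0 := by
      rcases hi with hi | hi
      · rw [hi, zero_mul]
      · rw [hi, mul_zero]
    rw [pivX, this, sub_zero]
  exact {
    z1 := piv_z1 X Z i h.z1 hii
    z2 := piv_z2 X Z i h.z2 hii
    dX := fun a => by rw [hp]; exact h.dX _
    dZ := fun a => h.dZ _
    bX := fun a b g => by rw [hp]; exact h.bX _ _ _
    bZ := fun a b g => h.bZ _ _ _
    dj := fun a b g => by rw [hp]; exact h.dj _ _ _
    rows := fun a => by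
      have h1 := h.rows a
      have h2 := N_res_le i (fun j => X a j)
      have h3 := N_res_le i (fun j => Z j a)
      simp only [hp]
      change N (fun x : {x : κ // x ≠ i} => X a x) + N (fun x : {x : κ // x ≠ i} => Z x a) ≤ 4
      omega
    cols := fun a => by
      have h1 := h.cols a
      have h2 := N_res_le i (fun j => X j a)
      have h3 := N_res_le i (fun j => Z a j)
      simp only [hp]
      change N (fun x : {x : κ // x ≠ i} => X x a) + N (fun x : {x : κ // x ≠ i} => Z a x) ≤ 3
      omega }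

/-- the main step -/
theorem NF.step {X Z : Matrix κ κ (MonoidAlgebra ℤ Γ)} (h : NF X Z)
    (pr : ∀ i, 1 ≤ N (fun a => X a i)) (ps : ∀ i, 1 ≤ N (fun a => X i a))
    (pp : ∀ i, 1 ≤ N (fun a => Z a i)) (pq : ∀ i, 1 ≤ N (fun a => Z i a)) (i : κ)
    (h1 : N (fun a => X a i) = 1) : X i i = 0 ∧ NF (pivX X i) (resZ Z i) := by
  classical
  obtain ⟨k, c, e, hki, he, hk, ho, hZ, hN⟩ := h.col_one i h1
  have hii : X i i = 0 := ho i (Ne.symm hki)
  refine ⟨hii, ?_⟩
  have he0 : e ≠ 0 := by rintro rfl; norm_num at he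
  -- coefficients of column `i` of `Z`
  have hZc : ∀ j g, (Z j i).coeff g = (X j i).coeff g - (Z j k).coeff (g * c⁻¹) * e := by
    intro j g
    rw [hZ j, coeff_sub', coeff_smul_right]
  have hZki : (Z k i).coeff c = e := by
    rw [hZc, hk, mul_inv_cancel, h.dZ, MonoidAlgebra.coeff_single]; simp
  have lA : ∀ b t, (X i b).coeff (c⁻¹ * t) ≠ 0 → (Z b k).coeff t⁻¹ = 0 ∧ ¬ (b = k ∧ t = 1) := by
    intro b t hx
    have h2 := h.dj i b (c⁻¹ * t)
    have h3 : (Z b i).coeff (c⁻¹ * t)⁻¹ = 0 := by
      rcases mul_eq_zero.1 h2 with h4 | h4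
      · exact absurd h4 hx
      · exact h4
    rw [hZc] at h3
    have h5 : (c⁻¹ * t)⁻¹ * c⁻¹ = t⁻¹ := by group
    rw [h5] at h3
    by_cases hb : b = k
    · subst hb
      by_cases ht : t = 1
      · subst ht
        rw [hk, MonoidAlgebra.coeff_single] at h3
        simp [h.dZ] at h3
        exact absurd h3 he0
      · refine ⟨?_, fun h => ht h.2⟩
        rw [hk, MonoidAlgebra.coeff_single, Finsupp.single_apply, if_neg, zero_sub, neg_eq_zero]
          at h3
        · rcases mul_eq_zero.1 h3 with h4 | h4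
          · exact h4
          · exact absurd h4 he0
        · intro h6
          apply ht
          have h7 : (c⁻¹ * t)⁻¹ = t⁻¹ * c := by group
          rw [h7] at h6
          have h8 : t⁻¹ = 1 := by
            have := congrArg (· * c⁻¹) h6
            simpa using this.symm
          simpa using h8
    · refine ⟨?_, fun h => hb h.1⟩
      rw [ho b hb] at h3
      have h4 : (Z b k).coeff t⁻¹ * e = 0 := by simpa using h3
      rcases mul_eq_zero.1 h4 with h4 | h4
      · exact h4
      · exact absurd h4 he0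
  have lB : ∀ b t, b ≠ i → (X i b).coeff (c⁻¹ * t) ≠ 0 → (X k b).coeff t ≠ 0 →
      (X k b).coeff t = e * (X i b).coeff (c⁻¹ * t) := by
    intro b t hb hx hy
    set x := (X i b).coeff (c⁻¹ * t) with hxd
    set y := (X k b).coeff t with hyd
    have hx2 : x ^ 2 = 1 := by
      have h2 := h.bX i b (c⁻¹ * t)
      have h3 : 0 < x ^ 2 := by positivity
      rw [← hxd] at h2; omega
    have hy2 : y ^ 2 = 1 := by
      have h2 := h.bX k b t
      have h3 : 0 < y ^ 2 := by positivity
      rw [← hyd] at h2; omega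
    have h4 : (y - e * x) * (y + e * x) = 0 := by
      have : (y - e * x) * (y + e * x) = y ^ 2 - e ^ 2 * x ^ 2 := by ring
      rw [this, hy2, he, hx2]; norm_num
    rcases mul_eq_zero.1 h4 with h5 | h5
    · linarith
    exfalso
    have c1 := h.cols b
    have c2 := pq b
    have n1 : x ^ 2 ≤ nsq (X i b) := coeff_sq_le _ _
    have n2 : y ^ 2 ≤ nsq (X k b) := coeff_sq_le _ _
    have c3 : nsq (X k b) + nsq (X i b) ≤ N (fun a => X a b) :=
      two_nsq_le_N (fun a => X a b) k i hki
    have hXk : X k b = MonoidAlgebra.single t y := by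
      obtain ⟨t', y', _, h6⟩ := eq_single_of_nsq_one (x := X k b) (by omega)
      have h7 : y = (MonoidAlgebra.single t' y' : MonoidAlgebra ℤ Γ).coeff t := by rw [← h6]
      rw [MonoidAlgebra.coeff_single, Finsupp.single_apply] at h7
      split_ifs at h7 with h8
      · rw [h6, h8, h7]
      · exact absurd h7 hy
    have hXi : X i b = MonoidAlgebra.single (c⁻¹ * t) x := by
      obtain ⟨t', y', _, h6⟩ := eq_single_of_nsq_one (x := X i b) (by omega)
      have h7 : x = (MonoidAlgebra.single t' y' : MonoidAlgebra ℤ Γ).coeff (c⁻¹ * t) := by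
        rw [← h6]
      rw [MonoidAlgebra.coeff_single, Finsupp.single_apply] at h7
      split_ifs at h7 with h8
      · rw [h6, h8, h7]
      · exact absurd h7 hx
    have hXo : ∀ a, a ≠ k → a ≠ i → X a b = 0 := by
      intro a ha1 ha2
      have h6 : nsq (X a b) + nsq (X k b) + nsq (X i b) ≤ N (fun a => X a b) :=
        three_nsq_le_N (fun a => X a b) a k i ha1 ha2 hki
      have h7 := nsq_nonneg (X a b)
      exact nsq_eq_zero (by omega)
    have h6 := h.e2 k b
    have h7 : ∑ x, Z k x * X x b = Z k k * X k b + Z k i * X i b := by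
      rw [← Finset.sum_subset (Finset.subset_univ ({k, i} : Finset κ)), Finset.sum_pair hki]
      intro a _ ha
      rw [Finset.mem_insert, Finset.mem_singleton, not_or] at ha
      rw [hXo a ha.1 ha.2, mul_zero]
    rw [h7] at h6
    have h8 : (X k b - Z k b).coeff t = (Z k k * X k b + Z k i * X i b).coeff t := by rw [h6]
    rw [coeff_sub', coeff_add', hXk, hXi, coeff_smul_right, coeff_smul_right, mul_inv_cancel,
      h.dZ, MonoidAlgebra.coeff_single, Finsupp.single_eq_same] at h8
    have h9 : t * (c⁻¹ * t)⁻¹ = c := by group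
    rw [h9, hZki] at h8
    have h10 := h.bZ k b t
    have h11 : (Z k b).coeff t = -2 * (e * x) := by linarith
    rw [h11] at h10
    have h12 : (-2 * (e * x)) ^ 2 = 4 := by
      have : (-2 * (e * x)) ^ 2 = 4 * (e ^ 2 * x ^ 2) := by ring
      rw [this, he, hx2]; norm_num
    omega
  -- the pivoted matrix
  have hW : ∀ a b : {x : κ // x ≠ i}, (a : κ) ≠ k → pivX X i a b = X a b := by
    intro a b ha
    rw [pivX, ho a ha, zero_mul, sub_zero]
  have hWk : ∀ b : {x : κ // x ≠ i}, pivX X i ⟨k, hki⟩ b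
      = X k b - MonoidAlgebra.single c e * X i b := by
    intro b
    rw [pivX, hk]
  have hWkc : ∀ (b : {x : κ // x ≠ i}) t, (pivX X i ⟨k, hki⟩ b).coeff t
      = (X k b).coeff t - e * (X i b).coeff (c⁻¹ * t) := by
    intro b t
    rw [hWk, coeff_sub', coeff_smul_left]
  have lC : ∀ b : {x : κ // x ≠ i},
      0 ≤ (X k b * bar (MonoidAlgebra.single c e * X i b)).coeff 1 := by
    intro b
    rw [coeff_mul_bar_one _ _ _ (Finset.Subset.refl _)]
    refine Finset.sum_nonneg fun g hg => ?_
    rw [Finsupp.mem_support_iff] at hg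
    rw [coeff_smul_left]
    by_cases hx : (X i b).coeff (c⁻¹ * g) = 0
    · rw [hx]; simp
    · rw [lB b g b.2 hx hg]
      exact mul_self_nonneg _
  have lN : ∀ b : {x : κ // x ≠ i},
      nsq (pivX X i ⟨k, hki⟩ b) ≤ nsq (X k b) + nsq (X i b) := by
    intro b
    rw [hWk, sub_eq_add_neg, nsq_add, nsq_neg, nsq_single_mul c e he, bar_neg, mul_neg,
      MonoidAlgebra.coeff_neg, Finsupp.neg_apply]
    have := lC b
    omega
  have caseK : ∀ a : {x : κ // x ≠ i}, (a : κ) = k → a = ⟨k, hki⟩ := fun a ha =>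
    Subtype.ext ha
  exact {
    z1 := piv_z1 X Z i h.z1 hii
    z2 := piv_z2 X Z i h.z2 hii
    dX := fun a => by
      by_cases ha : (a : κ) = k
      · rw [caseK a ha, hWkc, h.dX]
        have : (X i k).coeff (c⁻¹ * 1) = 0 := by
          by_contra hcon
          exact (lA k 1 hcon).2 ⟨rfl, rfl⟩
        dsimp only
        rw [this]; simp
      · rw [hW a a ha]; exact h.dX _
    dZ := fun a => h.dZ _
    bX := fun a b g => by
      by_cases ha : (a : κ) = k
      · rw [caseK a ha, hWkc]
        by_cases hx : (X i b).coeff (c⁻¹ * g) = 0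
        · rw [hx, mul_zero, sub_zero]; exact h.bX _ _ _
        · by_cases hy : (X k b).coeff g = 0
          · rw [hy, zero_sub, neg_sq, mul_pow, he, one_mul]; exact h.bX _ _ _
          · rw [lB b g b.2 hx hy, sub_self]; norm_num
      · rw [hW a b ha]; exact h.bX _ _ _
    bZ := fun a b g => h.bZ _ _ _
    dj := fun a b g => by
      by_cases ha : (a : κ) = k
      · rw [caseK a ha, hWkc]
        change _ * (Z b k).coeff g⁻¹ = 0
        by_cases hx : (X i b).coeff (c⁻¹ * g) = 0
        · rw [hx, mul_zero, sub_zero]; exact h.dj _ _ _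
        · rw [(lA b g hx).1, mul_zero]
      · rw [hW a b ha]; exact h.dj _ _ _
    rows := fun a => by
      by_cases ha : (a : κ) = k
      · rw [caseK a ha]
        change N (fun x : {x : κ // x ≠ i} => pivX X i ⟨k, hki⟩ x)
          + N (fun x : {x : κ // x ≠ i} => Z x k) ≤ 4
        have r1 := N_res_le i (fun j => Z j k)
        have r2 := h.rows i
        have r3 := h.rows k
        have r4 := pp k
        by_cases hs : N (fun j => X k j) ≤ 2
        · have r5 := N_spl i (fun j => X k j)
          have r6 := N_spl i (fun j => X i j)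
          rw [hk, nsq_single, he] at r5
          rw [hii, nsq_zero] at r6
          have r7 : N (fun x : {x : κ // x ≠ i} => pivX X i ⟨k, hki⟩ x)
              ≤ N (fun x : {x : κ // x ≠ i} => X k x) + N (fun x : {x : κ // x ≠ i} => X i x) := by
            unfold N
            rw [← Finset.sum_add_distrib]
            exact Finset.sum_le_sum fun b _ => lN b
          omega
        · have r8 : N (fun a => Z a k) = 1 := by omega
          obtain ⟨m, c', e', hmk, he', hm, ho', hZ', hN'⟩ := h.neg.col_one k (by rw [N_neg_col, r8])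
          rw [N_neg_col, N_neg_col] at hN'
          have r9 := pr m
          have r10 := h.cols k
          have r11 := pq k
          have r12 : N (fun a => Z k a) = 1 := by omega
          have r13 : 1 ≤ nsq (Z k i) := by
            have := coeff_sq_le (Z k i) c
            rw [hZki, he] at this; exact this
          have hZo : ∀ j, j ≠ i → Z k j = 0 := by
            intro j hj
            have : nsq (Z k j) + nsq (Z k i) ≤ N (fun a => Z k a) :=
              two_nsq_le_N (fun a => Z k a) j i hj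
            have h2 := nsq_nonneg (Z k j)
            exact nsq_eq_zero (by omega)
          have hZi : Z k i = MonoidAlgebra.single c e := by
            rw [hZ k, hZo k hki, hk, zero_mul, sub_zero]
          have hW0 : ∀ b : {x : κ // x ≠ i}, pivX X i ⟨k, hki⟩ b = 0 := by
            intro b
            have h2 := h.e2 k b
            rw [Finset.sum_eq_single i (fun x _ hx => by rw [hZo x hx, zero_mul])
              (fun hi => absurd (Finset.mem_univ i) hi), hZi, hZo b b.2, sub_zero] at h2
            rw [hWk, h2, sub_self]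
          have r14 : N (fun x : {x : κ // x ≠ i} => pivX X i ⟨k, hki⟩ x) = 0 :=
            Finset.sum_eq_zero fun b _ => by
              change nsq (pivX X i ⟨k, hki⟩ b) = 0
              rw [hW0 b, nsq_zero]
          omega
      · have r1 := N_res_le i (fun j => X a j)
        have r2 := N_res_le i (fun j => Z j a)
        have r3 := h.rows a
        simp only [hW a _ ha]
        change N (fun x : {x : κ // x ≠ i} => X a x) + N (fun x : {x : κ // x ≠ i} => Z x a) ≤ 4
        omega
    cols := fun b => by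
      have r1 := N_res_le i (fun j => Z b j)
      have r2 := N_spl i (fun j => X j b)
      have r3 := h.cols b
      change N (fun x : {x : κ // x ≠ i} => pivX X i x b)
        + N (fun x : {x : κ // x ≠ i} => Z b x) ≤ 3
      have r4 : N (fun x : {x : κ // x ≠ i} => pivX X i x b)
          ≤ nsq (X i b) + N (fun x : {x : κ // x ≠ i} => X x b) := by
        have r5 : nsq (X i b) = ∑ x : {x : κ // x ≠ i}, if x = ⟨k, hki⟩ then nsq (X i b) else 0 := by
          rw [Finset.sum_ite_eq' Finset.univ]; simp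
        unfold N
        rw [r5, ← Finset.sum_add_distrib]
        refine Finset.sum_le_sum fun a _ => ?_
        by_cases ha : a = ⟨k, hki⟩
        · rw [if_pos ha, ha]
          have := lN b
          dsimp only
          omega
        · rw [if_neg ha]
          change nsq (pivX X i a b) ≤ 0 + nsq (X a b)
          rw [hW a b (fun h => ha (caseK a h)), zero_add]
      omega }

/-- the main induction -/
theorem main_ind : ∀ (n : ℕ) (κ : Type) [Fintype κ] [DecidableEq κ], Fintype.card κ ≤ n →
    ∀ X Z : Matrix κ κ (MonoidAlgebra ℤ Γ), NF X Z → Tm (TU Γ) (1 + X) := by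
  intro n
  induction n with
  | zero =>
    intro κ _ _ hc X Z _ w _
    have : IsEmpty κ := Fintype.card_eq_zero_iff.1 (Nat.le_zero.1 hc)
    have : w = 1 := Units.ext (Subsingleton.elim _ _)
    rw [this]; exact TT_one _
  | succ n ih =>
    intro κ _ _ hc X Z h
    rcases isEmpty_or_nonempty κ with hE | hE
    · intro w _
      have : w = 1 := Units.ext (Subsingleton.elim _ _)
      rw [this]; exact TT_one _
    have hcard : ∀ i : κ, Fintype.card {x : κ // x ≠ i} ≤ n := by
      intro i
      have h1 : Fintype.card {x : κ // x ≠ i} < Fintype.card κ :=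
        Fintype.card_subtype_lt (p := fun x => x ≠ i) (x := i) (by simp)
      omega
    by_cases h0 : ∃ i, (∀ a, X a i = 0) ∨ (∀ b, X i b = 0)
    · obtain ⟨i, hi⟩ := h0
      have hii : X i i = 0 := by rcases hi with hi | hi <;> exact hi i
      exact piv_Tm (TU Γ) X Z i h.z1 h.z2 hii (ih _ (hcard i) _ _ (h.del i hi))
    push Not at h0
    have pr : ∀ i, 1 ≤ N (fun a => X a i) := by
      intro i
      obtain ⟨a, ha⟩ := (h0 i).1
      exact le_trans (one_le_nsq ha) (nsq_le_N (fun a => X a i) a)
    have ps : ∀ i, 1 ≤ N (fun a => X i a) := by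
      intro i
      obtain ⟨a, ha⟩ := (h0 i).2
      exact le_trans (one_le_nsq ha) (nsq_le_N (fun a => X i a) a)
    have pp : ∀ i, 1 ≤ N (fun a => Z a i) := by
      intro i
      by_contra hcon
      have h1 := N_nonneg (fun a => Z a i)
      have h2 : N (fun a => Z a i) = 0 := by omega
      obtain ⟨a, ha⟩ := (h0 i).1
      apply ha
      have h3 := h.e1 a i
      rw [Finset.sum_eq_zero fun x _ => by rw [N_eq_zero h2 x, mul_zero], N_eq_zero h2 a,
        sub_zero] at h3
      exact h3
    have pq : ∀ i, 1 ≤ N (fun a => Z i a) := by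
      intro i
      by_contra hcon
      have h1 := N_nonneg (fun a => Z i a)
      have h2 : N (fun a => Z i a) = 0 := by omega
      obtain ⟨a, ha⟩ := (h0 i).2
      apply ha
      have h3 := h.e2 i a
      rw [Finset.sum_eq_zero fun x _ => by rw [N_eq_zero h2 x, zero_mul], N_eq_zero h2 a,
        sub_zero] at h3
      exact h3
    have i : κ := Classical.arbitrary κ
    have hi := h.cols i
    have hi1 := pr i
    have hi2 := pq i
    by_cases hr : N (fun a => X a i) = 1
    · obtain ⟨hii, h2⟩ := h.step pr ps pp pq i hr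
      exact piv_Tm (TU Γ) X Z i h.z1 h.z2 hii (ih _ (hcard i) _ _ h2)
    · have hq : N (fun a => Z i a) = 1 := by omega
      obtain ⟨hii, h2⟩ := h.ad.step (fun l => by rw [N_na_col]; exact pq l)
        (fun l => by rw [N_na_row]; exact pp l) (fun l => by rw [N_na_col]; exact ps l)
        (fun l => by rw [N_na_row]; exact pr l) i (by rw [N_na_col]; exact hq)
      exact Tm_adj X Z h.z1 h.z2
        (piv_Tm (TU Γ) _ _ i h.ad.z1 h.ad.z2 hii (ih _ (hcard i) _ _ h2))

end Pool.Agent.Y75.Th
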