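import Pool.Agent.Y75.Th.Core

set_option autoImplicit false
set_option linter.unusedSectionVars false

/-! The initial normalisation, and the theorem for all invertible matrices. -/

namespace Pool.Agent.Y75.Th

open Matrix TH57.Thr TH6.LF

theorem sum_eq_one {α : Type} (s : Finset α) (f : α → ℤ) (hf : ∀ a, 0 ≤ f a)
    (hs : ∑ a ∈ s, f a = 1) : ∃ p ∈ s, f p = 1 ∧ ∀ q ∈ s, q ≠ p → f q = 0 := by
  classical
  obtain ⟨p, hp, hp0⟩ := Finset.exists_ne_zero_of_sum_ne_zero (s := s) (f := f) (by omega)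
  have h1 := hf p
  rw [← Finset.add_sum_erase s f hp] at hs
  have h2 : 0 ≤ ∑ a ∈ s.erase p, f a := Finset.sum_nonneg fun _ _ => hf _
  have h3 : ∑ a ∈ s.erase p, f a = 0 := by omega
  rw [Finset.sum_eq_zero_iff_of_nonneg fun _ _ => hf _] at h3
  exact ⟨p, hp, by omega, fun q hq hqp => h3 q (Finset.mem_erase.2 ⟨hqp, hq⟩)⟩

variable {Γ : Type} [Group Γ] {κ : Type} [Fintype κ] [DecidableEq κ]

theorem unique_pos (T : κ → Finset Γ) (f : κ → Γ → ℤ) (hf : ∀ j g, 0 ≤ f j g)
    (hT : ∀ j g, g ∉ T j → f j g = 0) (hs : ∑ j, ∑ g ∈ T j, f j g = 1) :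
    ∃ j g, f j g = 1 ∧ ∀ j' g', ¬ (j' = j ∧ g' = g) → f j' g' = 0 := by
  classical
  have hs' : ∑ p ∈ (Finset.univ : Finset κ).sigma T, f p.1 p.2 = 1 := by
    rw [Finset.sum_sigma]; exact hs
  obtain ⟨⟨j, g⟩, _, h2, h3⟩ := sum_eq_one _ (fun p : (_ : κ) × Γ => f p.1 p.2)
    (fun p => hf p.1 p.2) hs'
  refine ⟨j, g, h2, fun j' g' h => ?_⟩
  by_cases hg : g' ∈ T j'
  · refine h3 ⟨j', g'⟩ (by simp [hg]) fun h4 => h ?_
    simp only [Sigma.mk.injEq, heq_eq_eq] at h4
    exact h4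
  · exact hT _ _ hg

/-- diagonal matrices of signed group elements -/
noncomputable def dgs (a : κ → Γ) (ε : κ → ℤ) (he : ∀ i, ε i * ε i = 1) :
    (Matrix κ κ (MonoidAlgebra ℤ Γ))ˣ where
  val := Matrix.diagonal fun i => MonoidAlgebra.single (a i) (ε i)
  inv := Matrix.diagonal fun i => MonoidAlgebra.single (a i)⁻¹ (ε i)
  val_inv := by
    rw [Matrix.diagonal_mul_diagonal, ← Matrix.diagonal_one]
    congr 1
    funext i
    rw [MonoidAlgebra.single_mul_single, mul_inv_cancel, he, MonoidAlgebra.one_def]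
  inv_val := by
    rw [Matrix.diagonal_mul_diagonal, ← Matrix.diagonal_one]
    congr 1
    funext i
    rw [MonoidAlgebra.single_mul_single, inv_mul_cancel, he, MonoidAlgebra.one_def]

/-- a signed group element as a unit -/
noncomputable def sgu (g : Γ) (ε : ℤ) (he : ε * ε = 1) : (MonoidAlgebra ℤ Γ)ˣ where
  val := MonoidAlgebra.single g ε
  inv := MonoidAlgebra.single g⁻¹ ε
  val_inv := by rw [MonoidAlgebra.single_mul_single, mul_inv_cancel, he, MonoidAlgebra.one_def]
  inv_val := by rw [MonoidAlgebra.single_mul_single, inv_mul_cancel, he, MonoidAlgebra.one_def]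

theorem sgu_mem (g : Γ) (ε : ℤ) (he : ε * ε = 1) : sgu g ε he ∈ TU Γ :=
  ⟨g, ⟨ε, ε, he, he⟩, rfl⟩

theorem dgs_mem (a : κ → Γ) (ε : κ → ℤ) (he : ∀ i, ε i * ε i = 1) :
    dgs a ε he ∈ HH (TU Γ) κ := by
  have key : ∀ s : Finset κ, ∃ x ∈ HH (TU Γ) κ, (x : Matrix κ κ (MonoidAlgebra ℤ Γ))
      = Matrix.diagonal fun i => if i ∈ s then MonoidAlgebra.single (a i) (ε i) else 1 := by
    intro s
    induction s using Finset.induction_on with
    | empty => exact ⟨1, one_mem _, by simp⟩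
    | insert i s hi ih =>
      obtain ⟨x, hx, hx2⟩ := ih
      refine ⟨Units.map (dgm i) (sgu (a i) (ε i) (he i)) * x,
        mul_mem (dgm_mem_HH _ _ _ (sgu_mem _ _ _)) hx, ?_⟩
      rw [Units.val_mul, hx2]
      change Matrix.diagonal (Function.update 1 i (MonoidAlgebra.single (a i) (ε i))) * _ = _
      rw [Matrix.diagonal_mul_diagonal]
      congr 1
      funext j
      by_cases hj : j = i
      · subst hj; simp [hi]
      · simp [hj]
  obtain ⟨x, hx, hx2⟩ := key Finset.univ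
  convert hx using 1
  apply Units.ext
  rw [hx2]
  simp [dgs]

theorem TT_pu (e : κ ≃ κ) : TT (TU Γ) (pu (R := MonoidAlgebra ℤ Γ) e) := by
  have h1 : pu (R := MonoidAlgebra ℤ Γ) e
      = Units.map (mpm (Int.castRingHom (MonoidAlgebra ℤ Γ))) (pu (R := ℤ) e) := by
    apply Units.ext
    ext1 i j
    change (1 : Matrix κ κ (MonoidAlgebra ℤ Γ)) (e i) j
      = (((1 : Matrix κ κ ℤ) (e i) j : ℤ) : MonoidAlgebra ℤ Γ)
    rw [Matrix.one_apply, Matrix.one_apply]
    split_ifs <;> simp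
  rw [h1]
  exact TT_im _

/-- **Main theorem.** -/
theorem TT_of_bounds (A : (Matrix κ κ (MonoidAlgebra ℤ Γ))ˣ)
    (C : Matrix κ κ (MonoidAlgebra ℤ Γ))
    (hC : C = adj (↑A⁻¹ : Matrix κ κ (MonoidAlgebra ℤ Γ)))
    (hrow : ∀ i, N (fun j => (A : Matrix κ κ (MonoidAlgebra ℤ Γ)) i j - C i j) ≤ 4)
    (hcol : ∀ j, N (fun i => (A : Matrix κ κ (MonoidAlgebra ℤ Γ)) i j - C i j) ≤ 3) :
    TT (TU Γ) A := by
  classical
  set Am : Matrix κ κ (MonoidAlgebra ℤ Γ) := (A : Matrix κ κ (MonoidAlgebra ℤ Γ)) with hAm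
  have hAC : Am * adj C = 1 := by rw [hC, adj_adj, hAm, Units.mul_inv]
  have hCA : adj C * Am = 1 := by rw [hC, adj_adj, hAm, Units.inv_mul]
  have b1 : ∀ i j g, ((Am i j).coeff g - (C i j).coeff g) ^ 2 ≤ 1 := by
    intro i j g
    have h1 := hcol j
    have h2 : nsq (Am i j - C i j) ≤ N (fun i => Am i j - C i j) :=
      nsq_le_N (fun i => Am i j - C i j) i
    have h3 := coeff_sq_le (Am i j - C i j) g
    rw [coeff_sub'] at h3
    have h4 : ((Am i j).coeff g - (C i j).coeff g) ^ 2 ≤ 3 := by omega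
    have h5 : |(Am i j).coeff g - (C i j).coeff g| ≤ 1 := by
      by_contra hcon
      push Not at hcon
      have h6 : (2 : ℤ) ≤ |(Am i j).coeff g - (C i j).coeff g| := hcon
      have h7 : (2 : ℤ) ^ 2 ≤ |(Am i j).coeff g - (C i j).coeff g| ^ 2 :=
        pow_le_pow_left₀ (by norm_num) h6 2
      rw [sq_abs] at h7
      omega
    have h6 := pow_le_pow_left₀ (abs_nonneg _) h5 2
    rw [sq_abs] at h6
    simpa using h6
  have b2 : ∀ i j g, 0 ≤ (Am i j).coeff g * (C i j).coeff g := by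
    intro i j g
    have h1 := b1 i j g
    nlinarith [sq_nonneg ((Am i j).coeff g), sq_nonneg ((C i j).coeff g)]
  have hrow1 : ∀ i, ∃ j g, (Am i j).coeff g * (C i j).coeff g = 1 ∧
      ∀ j' g', ¬ (j' = j ∧ g' = g) → (Am i j').coeff g' * (C i j').coeff g' = 0 := by
    intro i
    apply unique_pos (fun j => (Am i j).coeff.support)
      (fun j g => (Am i j).coeff g * (C i j).coeff g) (fun j g => b2 i j g)
    · intro j g hg
      rw [Finsupp.notMem_support_iff] at hg
      rw [hg, zero_mul]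
    · have h1 : ((Am * adj C) i i).coeff 1 = 1 := by
        rw [hAC, Matrix.one_apply_eq, MonoidAlgebra.one_def, MonoidAlgebra.coeff_single]; simp
      rw [Matrix.mul_apply, MonoidAlgebra.coeff_sum, Finsupp.finsetSum_apply] at h1
      rw [← h1]
      exact Finset.sum_congr rfl fun j _ =>
        (coeff_mul_bar_one (Am i j) (C i j) _ (Finset.Subset.refl _)).symm
  have hcol1 : ∀ j, ∃ i g, (Am i j).coeff g * (C i j).coeff g = 1 ∧
      ∀ i' g', ¬ (i' = i ∧ g' = g) → (Am i' j).coeff g' * (C i' j).coeff g' = 0 := by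
    intro j
    apply unique_pos (fun i => (C i j).coeff.support)
      (fun i g => (Am i j).coeff g * (C i j).coeff g) (fun i g => b2 i j g)
    · intro i g hg
      rw [Finsupp.notMem_support_iff] at hg
      rw [hg, mul_zero]
    · have h1 : ((adj C * Am) j j).coeff 1 = 1 := by
        rw [hCA, Matrix.one_apply_eq, MonoidAlgebra.one_def, MonoidAlgebra.coeff_single]; simp
      rw [Matrix.mul_apply, MonoidAlgebra.coeff_sum, Finsupp.finsetSum_apply] at h1
      rw [← h1]
      refine Finset.sum_congr rfl fun i _ => ?_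
      rw [adj_apply, coeff_bar_mul_one (C i j) (Am i j) _ (Finset.Subset.refl _)]
      exact Finset.sum_congr rfl fun g _ => mul_comm _ _
  choose τ hh hτ1 hτ2 using hrow1
  have hinj : Function.Injective τ := by
    intro i i' hii
    obtain ⟨i0, g0, h1, h2⟩ := hcol1 (τ i)
    have h3 : i = i0 := by
      by_contra hne
      have := h2 i (hh i) (fun h => hne h.1)
      rw [hτ1 i] at this
      exact absurd this (by norm_num)
    have h4 : i' = i0 := by
      by_contra hne
      have := h2 i' (hh i') (fun h => hne h.1)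
      rw [hii, hτ1 i'] at this
      exact absurd this (by norm_num)
    rw [h3, h4]
  obtain ⟨e, he⟩ : ∃ e : κ ≃ κ, ∀ i, e i = τ i :=
    ⟨Equiv.ofBijective τ (Finite.injective_iff_bijective.1 hinj), fun _ => rfl⟩
  set ε : κ → ℤ := fun i => (Am i (τ i)).coeff (hh i) with hε
  have hcε : ∀ i, (C i (τ i)).coeff (hh i) = ε i := by
    intro i
    have h1 := hτ1 i
    rcases Int.mul_eq_one_iff_eq_one_or_neg_one.1 h1 with ⟨h2, h3⟩ | ⟨h2, h3⟩
    · rw [hε]; dsimp only; rw [h2, h3]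
    · rw [hε]; dsimp only; rw [h2, h3]
  have hεε : ∀ i, ε i * ε i = 1 := by
    intro i
    have h1 := hτ1 i
    rw [hcε] at h1
    exact h1
  have hε2 : ∀ i, ε i ^ 2 = 1 := fun i => by rw [sq]; exact hεε i
  set D := dgs hh ε hεε with hD
  set P : (Matrix κ κ (MonoidAlgebra ℤ Γ))ˣ := D * pu e with hP
  set A₁ := A * P⁻¹ with hA₁
  have hPT : TT (TU Γ) P := TT_mul _ _ _ (TT_of_mem _ _ (dgs_mem _ _ _)) (TT_pu e)
  have hA : A = A₁ * P := by rw [hA₁]; group
  rw [hA]
  refine TT_mul _ _ _ ?_ hPT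
  have v1 : ∀ i j, (A₁ : Matrix κ κ (MonoidAlgebra ℤ Γ)) i j
      = Am i (τ j) * MonoidAlgebra.single (hh j)⁻¹ (ε j) := by
    intro i j
    change ((A : Matrix κ κ (MonoidAlgebra ℤ Γ))
      * ((1 : Matrix κ κ (MonoidAlgebra ℤ Γ)).submatrix id e
        * Matrix.diagonal fun i => MonoidAlgebra.single (hh i)⁻¹ (ε i))) i j = _
    rw [← Matrix.mul_assoc, Matrix.mul_diagonal]
    congr 1
    rw [← Matrix.submatrix_id_id (A : Matrix κ κ (MonoidAlgebra ℤ Γ)),
      ← Matrix.submatrix_mul _ _ id id e Function.bijective_id, Matrix.mul_one,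
      Matrix.submatrix_apply, he]
    rfl
  have v2 : ∀ i j, (↑A₁⁻¹ : Matrix κ κ (MonoidAlgebra ℤ Γ)) i j
      = MonoidAlgebra.single (hh i) (ε i) * bar (C j (τ i)) := by
    intro i j
    have h1 : A₁⁻¹ = P * A⁻¹ := by rw [hA₁]; group
    rw [h1]
    change ((Matrix.diagonal fun i => MonoidAlgebra.single (hh i) (ε i))
      * (1 : Matrix κ κ (MonoidAlgebra ℤ Γ)).submatrix e id
      * (↑A⁻¹ : Matrix κ κ (MonoidAlgebra ℤ Γ))) i j = _
    rw [Matrix.mul_assoc, Matrix.diagonal_mul]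
    congr 1
    rw [← Matrix.submatrix_id_id (↑A⁻¹ : Matrix κ κ (MonoidAlgebra ℤ Γ)),
      ← Matrix.submatrix_mul _ _ e id id Function.bijective_id, Matrix.one_mul,
      Matrix.submatrix_apply, he, hC, adj_apply, bar_bar]
    rfl
  set X : Matrix κ κ (MonoidAlgebra ℤ Γ) := (A₁ : Matrix κ κ (MonoidAlgebra ℤ Γ)) - 1 with hX
  set Z : Matrix κ κ (MonoidAlgebra ℤ Γ) :=
    1 - (↑A₁⁻¹ : Matrix κ κ (MonoidAlgebra ℤ Γ)) with hZ
  have hA1X : (A₁ : Matrix κ κ (MonoidAlgebra ℤ Γ)) = 1 + X := by rw [hX]; abel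
  -- coefficients
  have one_c : ∀ (i j : κ) (g : Γ), ((1 : Matrix κ κ (MonoidAlgebra ℤ Γ)) i j).coeff g
      = if i = j ∧ g = 1 then 1 else 0 := by
    intro i j g
    rw [Matrix.one_apply]
    by_cases hij : i = j
    · rw [if_pos hij, MonoidAlgebra.one_def, MonoidAlgebra.coeff_single, Finsupp.single_apply]
      by_cases hg : g = 1
      · rw [if_pos hg.symm, if_pos ⟨hij, hg⟩]
      · rw [if_neg (Ne.symm hg), if_neg (fun h => hg h.2)]
    · rw [if_neg hij, if_neg (fun h => hij h.1)]; simp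
  have cX : ∀ i j g, (X i j).coeff g
      = (Am i (τ j)).coeff (g * hh j) * ε j - if i = j ∧ g = 1 then 1 else 0 := by
    intro i j g
    rw [hX, Matrix.sub_apply, coeff_sub', v1, coeff_smul_right, inv_inv, one_c]
  have cZ : ∀ i j g, (Z j i).coeff g⁻¹
      = (if i = j ∧ g = 1 then 1 else 0) - (C i (τ j)).coeff (g * hh j) * ε j := by
    intro i j g
    rw [hZ, Matrix.sub_apply, coeff_sub', v2, coeff_smul_left, coeff_bar, one_c]
    have h1 : ((hh j)⁻¹ * g⁻¹)⁻¹ = g * hh j := by group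
    rw [h1, mul_comm (ε j)]
    congr 1
    by_cases h2 : i = j ∧ g = 1
    · rw [if_pos h2, if_pos ⟨h2.1.symm, by rw [h2.2]; simp⟩]
    · rw [if_neg h2, if_neg]
      rintro ⟨h3, h4⟩
      exact h2 ⟨h3.symm, by simpa using h4⟩
  have dX : ∀ i, (X i i).coeff 1 = 0 := by
    intro i
    rw [cX, one_mul, if_pos ⟨rfl, rfl⟩]
    change ε i * ε i - 1 = 0
    rw [hεε]; norm_num
  have dZ : ∀ i, (Z i i).coeff 1 = 0 := by
    intro i
    have := cZ i i 1
    rw [inv_one, one_mul, if_pos ⟨rfl, rfl⟩, hcε, hεε] at this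
    rw [this]; norm_num
  have dj : ∀ i j g, (X i j).coeff g * (Z j i).coeff g⁻¹ = 0 := by
    intro i j g
    by_cases h : i = j ∧ g = 1
    · obtain ⟨rfl, rfl⟩ := h
      rw [dX, zero_mul]
    · rw [cX, cZ, if_neg h, sub_zero, zero_sub]
      have h1 := hτ2 i (τ j) (g * hh j) (by
        rintro ⟨h2, h3⟩
        have h4 := hinj h2
        apply h
        refine ⟨h4.symm, ?_⟩
        rw [h4] at h3
        simpa using h3)
      have h2 : (Am i (τ j)).coeff (g * hh j) * ε j * -((C i (τ j)).coeff (g * hh j) * ε j)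
          = -(ε j * ε j) * ((Am i (τ j)).coeff (g * hh j) * (C i (τ j)).coeff (g * hh j)) := by
        ring
      rw [h2, h1, mul_zero]
  have sq1 : ∀ i j g, (X i j).coeff g ^ 2 + (Z j i).coeff g⁻¹ ^ 2 ≤ 1 := by
    intro i j g
    have h1 := dj i j g
    have h2 := b1 i (τ j) (g * hh j)
    have h3 : (X i j).coeff g + (Z j i).coeff g⁻¹
        = ((Am i (τ j)).coeff (g * hh j) - (C i (τ j)).coeff (g * hh j)) * ε j := by
      rw [cX, cZ]; ring
    have h4 : ((X i j).coeff g + (Z j i).coeff g⁻¹) ^ 2 ≤ 1 := by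
      rw [h3, mul_pow, hε2, mul_one]; exact h2
    nlinarith
  have nn : ∀ i j, nsq (X i j) + nsq (Z j i) = nsq (Am i (τ j) - C i (τ j)) := by
    intro i j
    have h1 : X i j + bar (Z j i)
        = (Am i (τ j) - C i (τ j)) * MonoidAlgebra.single (hh j)⁻¹ (ε j) := by
      ext g
      rw [coeff_add', coeff_bar, cX, cZ, coeff_smul_right, inv_inv, coeff_sub']
      ring
    rw [← nsq_mul_single (hh j)⁻¹ (ε j) (hε2 j) (Am i (τ j) - C i (τ j)), ← h1, nsq_add, nsq_bar,
      coeff_mul_bar_one _ _ _ (Finset.Subset.refl _),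
      Finset.sum_eq_zero fun g _ => by rw [coeff_bar]; exact dj i j g]
    ring
  have hNF : NF X Z := {
    z1 := by
      rw [hX, hZ, sub_mul, mul_sub, mul_sub, Units.mul_inv]
      simp only [mul_one, one_mul]
      try abel
    z2 := by
      rw [hX, hZ, sub_mul, mul_sub, mul_sub, Units.inv_mul]
      simp only [mul_one, one_mul]
      try abel
    dX := dX
    dZ := dZ
    bX := fun i j g => by
      have h1 := sq1 i j g
      have h2 := sq_nonneg ((Z j i).coeff g⁻¹)
      omega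
    bZ := fun i j g => by
      have h1 := sq1 j i g⁻¹
      rw [inv_inv] at h1
      have h2 := sq_nonneg ((X j i).coeff g⁻¹)
      omega
    dj := dj
    rows := fun i => by
      have h1 : N (fun j => X i j) + N (fun j => Z j i)
          = N (fun j => Am i j - C i j) := by
        have h2 : N (fun j => Am i j - C i j) = ∑ j, nsq (Am i (e j) - C i (e j)) :=
          (Equiv.sum_comp e (fun j => nsq (Am i j - C i j))).symm
        have h3 : N (fun j => X i j) + N (fun j => Z j i)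
            = ∑ j, (nsq (X i j) + nsq (Z j i)) := Finset.sum_add_distrib.symm
        rw [h2, h3]
        exact Finset.sum_congr rfl fun j _ => by rw [he]; exact nn i j
      rw [h1]; exact hrow i
    cols := fun j => by
      have h1 : N (fun i => X i j) + N (fun i => Z j i)
          = N (fun i => Am i (τ j) - C i (τ j)) := by
        have h3 : N (fun i => X i j) + N (fun i => Z j i)
            = ∑ i, (nsq (X i j) + nsq (Z j i)) := Finset.sum_add_distrib.symm
        rw [h3]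
        exact Finset.sum_congr rfl fun i _ => nn i j
      rw [h1]; exact hcol (τ j) }
  exact main_ind (Fintype.card κ) κ le_rfl X Z hNF A₁ hA1X

end Pool.Agent.Y75.Th
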