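import Pool.Agent.TH57.Thr.Asm
import Pool.Agent.TH6.LF.Blk

set_option autoImplicit false
set_option linter.unusedSectionVars false

/-! The squared `ℓ²`-norm of elements of an integral group ring. -/

namespace Pool.Agent.Y75.Th

open Matrix TH57.Thr TH6.LF

variable {Γ : Type} [Group Γ]

/-- The squared `ℓ²`-norm, i.e. the sum of the squares of the coefficients. -/
def nsq (x : MonoidAlgebra ℤ Γ) : ℤ := x.coeff.sum fun _ a => a ^ 2

theorem nsq_eq (x : MonoidAlgebra ℤ Γ) (T : Finset Γ) (h : x.coeff.support ⊆ T) :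
    nsq x = ∑ g ∈ T, x.coeff g ^ 2 := by
  unfold nsq
  exact Finsupp.sum_of_support_subset _ h _ (by intro i _; ring)

theorem nsq_nonneg (x : MonoidAlgebra ℤ Γ) : 0 ≤ nsq x := by
  rw [nsq_eq x _ (Finset.Subset.refl _)]
  exact Finset.sum_nonneg fun _ _ => sq_nonneg _

theorem coeff_sq_le (x : MonoidAlgebra ℤ Γ) (g : Γ) : x.coeff g ^ 2 ≤ nsq x := by
  classical
  rw [nsq_eq x (insert g x.coeff.support) (Finset.subset_insert _ _)]
  exact Finset.single_le_sum (f := fun g => x.coeff g ^ 2) (fun _ _ => sq_nonneg _)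
    (Finset.mem_insert_self _ _)

theorem two_coeff_sq_le (x : MonoidAlgebra ℤ Γ) (g h : Γ) (hne : g ≠ h) :
    x.coeff g ^ 2 + x.coeff h ^ 2 ≤ nsq x := by
  classical
  rw [nsq_eq x (insert g (insert h x.coeff.support))
    (fun a ha => Finset.mem_insert_of_mem (Finset.mem_insert_of_mem ha))]
  have h1 : ({g, h} : Finset Γ) ⊆ insert g (insert h x.coeff.support) := by
    intro a ha
    rw [Finset.mem_insert, Finset.mem_singleton] at ha
    rcases ha with rfl | rfl
    · exact Finset.mem_insert_self _ _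
    · exact Finset.mem_insert_of_mem (Finset.mem_insert_self _ _)
  have h2 := Finset.sum_le_sum_of_subset_of_nonneg h1
    (f := fun g => x.coeff g ^ 2) (fun _ _ _ => sq_nonneg _)
  rw [Finset.sum_pair hne] at h2
  exact h2

theorem nsq_zero : nsq (0 : MonoidAlgebra ℤ Γ) = 0 := by simp [nsq]

theorem nsq_eq_zero {x : MonoidAlgebra ℤ Γ} (h : nsq x = 0) : x = 0 := by
  ext g
  have := coeff_sq_le x g
  rw [h] at this
  have h2 : x.coeff g ^ 2 = 0 := le_antisymm this (sq_nonneg _)
  simpa using h2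

theorem one_le_nsq {x : MonoidAlgebra ℤ Γ} (h : x ≠ 0) : 1 ≤ nsq x := by
  have h1 := nsq_nonneg x
  have h2 : nsq x ≠ 0 := fun h' => h (nsq_eq_zero h')
  omega

theorem nsq_neg (x : MonoidAlgebra ℤ Γ) : nsq (-x) = nsq x := by
  rw [nsq_eq x _ (Finset.Subset.refl _), nsq_eq (-x) x.coeff.support]
  · refine Finset.sum_congr rfl fun g _ => ?_
    rw [MonoidAlgebra.coeff_neg, Finsupp.neg_apply]; ring
  · intro g hg
    rw [Finsupp.mem_support_iff] at hg ⊢
    intro h
    apply hg
    rw [MonoidAlgebra.coeff_neg, Finsupp.neg_apply, h, neg_zero]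

/-- the norm only depends on the coefficients up to a bijection of the group and signs -/
theorem nsq_of_equiv (x y : MonoidAlgebra ℤ Γ) (f : Γ ≃ Γ)
    (h : ∀ g, x.coeff (f g) ^ 2 = y.coeff g ^ 2) : nsq x = nsq y := by
  classical
  rw [nsq_eq y _ (Finset.Subset.refl _), nsq_eq x (y.coeff.support.map f.toEmbedding)]
  · rw [Finset.sum_map]
    exact Finset.sum_congr rfl fun g _ => h g
  · intro g hg
    rw [Finsupp.mem_support_iff] at hg
    rw [Finset.mem_map]
    refine ⟨f.symm g, ?_, by simp⟩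
    rw [Finsupp.mem_support_iff]
    intro h0
    have h1 := h (f.symm g)
    rw [h0, Equiv.apply_symm_apply] at h1
    exact hg (by simpa using h1)

theorem nsq_bar (x : MonoidAlgebra ℤ Γ) : nsq (bar x) = nsq x :=
  nsq_of_equiv _ _ (Equiv.inv Γ) fun g => by rw [coeff_bar]; simp

theorem coeff_smul_left (c : Γ) (e : ℤ) (x : MonoidAlgebra ℤ Γ) (g : Γ) :
    (MonoidAlgebra.single c e * x).coeff g = e * x.coeff (c⁻¹ * g) := by
  rw [MonoidAlgebra.coeff_single_mul_apply]

theorem coeff_smul_right (c : Γ) (e : ℤ) (x : MonoidAlgebra ℤ Γ) (g : Γ) :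
    (x * MonoidAlgebra.single c e).coeff g = x.coeff (g * c⁻¹) * e := by
  rw [MonoidAlgebra.coeff_mul_single_apply]

theorem nsq_single_mul (c : Γ) (e : ℤ) (he : e ^ 2 = 1) (x : MonoidAlgebra ℤ Γ) :
    nsq (MonoidAlgebra.single c e * x) = nsq x :=
  nsq_of_equiv _ _ (Equiv.mulLeft c) fun g => by
    rw [coeff_smul_left, mul_pow, he]; simp

theorem nsq_mul_single (c : Γ) (e : ℤ) (he : e ^ 2 = 1) (x : MonoidAlgebra ℤ Γ) :
    nsq (x * MonoidAlgebra.single c e) = nsq x :=
  nsq_of_equiv _ _ (Equiv.mulRight c) fun g => by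
    rw [coeff_smul_right, mul_pow, he]; simp

theorem nsq_single (c : Γ) (e : ℤ) : nsq (MonoidAlgebra.single c e) = e ^ 2 := by
  classical
  have h := nsq_eq (MonoidAlgebra.single c e) {c}
    (by rw [MonoidAlgebra.coeff_single]; exact Finsupp.support_single_subset)
  rw [h, Finset.sum_singleton, MonoidAlgebra.coeff_single, Finsupp.single_eq_same]

/-- an element of norm one -/
theorem eq_single_of_nsq_one {x : MonoidAlgebra ℤ Γ} (h : nsq x = 1) :
    ∃ c e, e ^ 2 = 1 ∧ x = MonoidAlgebra.single c e := by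
  classical
  have hx : x ≠ 0 := by
    rintro rfl
    rw [nsq_zero] at h
    exact absurd h (by norm_num)
  obtain ⟨c, hc⟩ : ∃ c, x.coeff c ≠ 0 := by
    by_contra hcon
    push Not at hcon
    apply hx
    ext g
    rw [hcon g]; rfl
  have h1 : 1 ≤ x.coeff c ^ 2 := by
    have := sq_nonneg (x.coeff c)
    have h2 : x.coeff c ^ 2 ≠ 0 := pow_ne_zero 2 hc
    omega
  refine ⟨c, x.coeff c, le_antisymm (h ▸ coeff_sq_le x c) h1, ?_⟩
  ext g
  rw [MonoidAlgebra.coeff_single, Finsupp.single_apply]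
  split_ifs with hg
  · rw [hg]
  · have h3 := two_coeff_sq_le x c g hg
    rw [h] at h3
    have h4 := sq_nonneg (x.coeff g)
    have h5 : x.coeff g ^ 2 = 0 := by omega
    simpa using h5

/-- the coefficient at the identity of a product with an adjoint -/
theorem coeff_mul_bar_one (x y : MonoidAlgebra ℤ Γ) (T : Finset Γ) (h : x.coeff.support ⊆ T) :
    (x * bar y).coeff 1 = ∑ g ∈ T, x.coeff g * y.coeff g := by
  rw [MonoidAlgebra.coeff_mul_apply_left, Finsupp.sum]
  have h1 : ∀ g, x.coeff g * (bar y).coeff (g⁻¹ * 1) = x.coeff g * y.coeff g := by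
    intro g; rw [coeff_bar]; simp
  simp only [h1]
  refine Finset.sum_subset h fun g _ hg => ?_
  rw [Finsupp.notMem_support_iff.1 hg, zero_mul]

theorem coeff_bar_mul_one (x y : MonoidAlgebra ℤ Γ) (T : Finset Γ) (h : x.coeff.support ⊆ T) :
    (bar x * y).coeff 1 = ∑ g ∈ T, x.coeff g * y.coeff g := by
  classical
  rw [MonoidAlgebra.coeff_mul_apply_left, Finsupp.sum]
  have h1 : ∀ g, (bar x).coeff g * y.coeff (g⁻¹ * 1) = x.coeff g⁻¹ * y.coeff g⁻¹ := by
    intro g; rw [coeff_bar]; simp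
  simp only [h1]
  have h2 : ∑ g ∈ T, x.coeff g * y.coeff g
      = ∑ g ∈ T.map (Equiv.inv Γ).toEmbedding, x.coeff g⁻¹ * y.coeff g⁻¹ := by
    rw [Finset.sum_map]; simp
  rw [h2]
  refine Finset.sum_subset ?_ fun g _ hg => ?_
  · intro g hg
    rw [Finsupp.mem_support_iff, coeff_bar] at hg
    rw [Finset.mem_map]
    exact ⟨g⁻¹, h (Finsupp.mem_support_iff.2 hg), by simp⟩
  · rw [Finsupp.notMem_support_iff, coeff_bar] at hg
    rw [hg, zero_mul]

/-- the norm of a sum of elements -/
theorem nsq_add (x y : MonoidAlgebra ℤ Γ) :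
    nsq (x + y) = nsq x + nsq y + 2 * (x * bar y).coeff 1 := by
  classical
  rw [coeff_mul_bar_one x y (x.coeff.support ∪ y.coeff.support) Finset.subset_union_left,
    nsq_eq x (x.coeff.support ∪ y.coeff.support) Finset.subset_union_left,
    nsq_eq y (x.coeff.support ∪ y.coeff.support) Finset.subset_union_right,
    nsq_eq (x + y) (x.coeff.support ∪ y.coeff.support)
      (by rw [MonoidAlgebra.coeff_add]; exact Finsupp.support_add), Finset.mul_sum,
    ← Finset.sum_add_distrib, ← Finset.sum_add_distrib]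
  refine Finset.sum_congr rfl fun g _ => ?_
  rw [MonoidAlgebra.coeff_add, Finsupp.add_apply]
  ring

end Pool.Agent.Y75.Th
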