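import Pool.Agent.Y75.Th.Nsq

set_option autoImplicit false
set_option linter.unusedSectionVars false

/-! Pivoting and adjoints of stably trivial matrices. -/

namespace Pool.Agent.Y75.Th

open Matrix TH57.Thr TH6.LF

section ring

variable {R : Type} [Ring R] {κ : Type} [Fintype κ] [DecidableEq κ]

/-- every unit with this matrix is stably trivial -/
def Tm (U : Subgroup Rˣ) (M : Matrix κ κ R) : Prop :=
  ∀ w : (Matrix κ κ R)ˣ, (w : Matrix κ κ R) = M → TT U w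

/-- splitting off one index -/
def spl (i : κ) : Unit ⊕ {x : κ // x ≠ i} ≃ κ where
  toFun := Sum.elim (fun _ => i) (fun x => x.1)
  invFun x := if h : x = i then Sum.inl () else Sum.inr ⟨x, h⟩
  left_inv := by
    rintro (⟨⟩ | ⟨x, hx⟩)
    · simp
    · simp [hx]
  right_inv := by
    intro x
    by_cases h : x = i
    · simp [h]
    · simp [h]

theorem sum_spl {M : Type} [AddCommMonoid M] (i : κ) (f : κ → M) :
    ∑ x, f x = f i + ∑ x : {x : κ // x ≠ i}, f x := by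
  rw [← Equiv.sum_comp (spl i) f, Fintype.sum_sum_type]
  simp [spl]

/-- the pivoted matrix -/
def pivX (X : Matrix κ κ R) (i : κ) : Matrix {x : κ // x ≠ i} {x : κ // x ≠ i} R :=
  fun a b => X a b - X a i * X i b

/-- the restricted matrix -/
def resZ (Z : Matrix κ κ R) (i : κ) : Matrix {x : κ // x ≠ i} {x : κ // x ≠ i} R :=
  fun a b => Z a b

theorem piv_z1 (X Z : Matrix κ κ R) (i : κ) (z1 : X - Z = X * Z) (hi : X i i = 0) :
    pivX X i - resZ Z i = pivX X i * resZ Z i := by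
  ext1 a b
  have e : ∀ p q, X p q - Z p q = ∑ x, X p x * Z x q := by
    intro p q
    have := congrFun (congrFun z1 p) q
    rwa [Matrix.sub_apply, Matrix.mul_apply] at this
  have e1 := e a b
  have e2 := e i b
  rw [sum_spl i] at e1 e2
  rw [hi, zero_mul, zero_add] at e2
  rw [Matrix.sub_apply, Matrix.mul_apply]
  simp only [pivX, resZ, sub_mul, Finset.sum_sub_distrib, mul_assoc, ← Finset.mul_sum]
  have e3 : ∑ x : {x : κ // x ≠ i}, X a x * Z x b = X a b - Z a b - X a i * Z i b := by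
    rw [e1]; abel
  rw [e3, ← e2, mul_sub]
  abel

theorem piv_z2 (X Z : Matrix κ κ R) (i : κ) (z2 : X - Z = Z * X) (hi : X i i = 0) :
    pivX X i - resZ Z i = resZ Z i * pivX X i := by
  ext1 a b
  have e : ∀ p q, X p q - Z p q = ∑ x, Z p x * X x q := by
    intro p q
    have := congrFun (congrFun z2 p) q
    rwa [Matrix.sub_apply, Matrix.mul_apply] at this
  have e1 := e a b
  have e2 := e a i
  rw [sum_spl i] at e1 e2
  rw [hi, mul_zero, zero_add] at e2
  rw [Matrix.sub_apply, Matrix.mul_apply]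
  simp only [pivX, resZ, mul_sub, Finset.sum_sub_distrib, ← mul_assoc, ← Finset.sum_mul]
  have e3 : ∑ x : {x : κ // x ≠ i}, Z a x * X x b = X a b - Z a b - Z a i * X i b := by
    rw [e1]; abel
  rw [e3, ← e2, sub_mul]
  abel

/-- the unit with matrix `1 + X` -/
def mkU (X Z : Matrix κ κ R) (z1 : X - Z = X * Z) (z2 : X - Z = Z * X) :
    (Matrix κ κ R)ˣ where
  val := 1 + X
  inv := 1 - Z
  val_inv := by
    rw [add_mul, one_mul, mul_sub, mul_one, ← z1]; abel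
  inv_val := by
    rw [sub_mul, one_mul, mul_add, mul_one, ← z2]; abel

/-- pivoting at a diagonal entry equal to one -/
theorem piv_Tm (U : Subgroup Rˣ) (X Z : Matrix κ κ R) (i : κ) (z1 : X - Z = X * Z)
    (z2 : X - Z = Z * X) (hi : X i i = 0) (h : Tm U (1 + pivX X i)) : Tm U (1 + X) := by
  intro w hw
  set w' := mkU (pivX X i) (resZ Z i) (piv_z1 X Z i z1 hi) (piv_z2 X Z i z2 hi) with hw'
  have t1 : TT U w' := h w' rfl
  have t2 : TT U (Units.map (re (Equiv.sumComm Unit {x : κ // x ≠ i}))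
      (Units.map (stm Unit) w')) := TT_re U _ _ (TT_st U w' t1)
  obtain ⟨lc, hlc⟩ : ∃ lc : Matrix {x : κ // x ≠ i} Unit R, ∀ a b, lc a b = X a i :=
    ⟨fun a _ => X a i, fun _ _ => rfl⟩
  obtain ⟨ru, hru⟩ : ∃ ru : Matrix Unit {x : κ // x ≠ i} R, ∀ a b, ru a b = X i b :=
    ⟨fun _ b => X i b, fun _ _ => rfl⟩
  obtain ⟨lo, hlo1, hlo2⟩ := El_unit (1 + (fromBlocks 0 0 lc 0 :
      Matrix (Unit ⊕ {x : κ // x ≠ i}) (Unit ⊕ {x : κ // x ≠ i}) R))
    (el_unip (Finset.univ.filter fun v : Unit ⊕ {x : κ // x ≠ i} => v.isRight) _ (by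
      rintro (i | i) (j | j) h <;> simp at h ⊢))
  obtain ⟨up, hup1, hup2⟩ := El_unit (1 + (fromBlocks 0 ru 0 0 :
      Matrix (Unit ⊕ {x : κ // x ≠ i}) (Unit ⊕ {x : κ // x ≠ i}) R))
    (el_unip (Finset.univ.filter fun v : Unit ⊕ {x : κ // x ≠ i} => v.isLeft) _ (by
      rintro (i | i) (j | j) h <;> simp at h ⊢))
  have t3 := TT_mul U _ _ (TT_mul U _ _ (hlo2 U) t2) (hup2 U)
  have t4 := TT_re U (spl i).symm _ t3
  convert t4 using 1
  apply Units.ext
  change (w : Matrix κ κ R) = (((lo * Units.map (re (Equiv.sumComm Unit {x : κ // x ≠ i}))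
      (Units.map (stm Unit) w') * up : (Matrix _ _ R)ˣ) : Matrix _ _ R)).submatrix
      (spl i).symm (spl i).symm
  rw [Units.val_mul, Units.val_mul, hlo1, hup1, hw]
  have e2 : ((Units.map (re (Equiv.sumComm Unit {x : κ // x ≠ i})) (Units.map (stm Unit) w') :
      (Matrix (Unit ⊕ {x : κ // x ≠ i}) (Unit ⊕ {x : κ // x ≠ i}) R)ˣ) :
      Matrix (Unit ⊕ {x : κ // x ≠ i}) (Unit ⊕ {x : κ // x ≠ i}) R)
      = fromBlocks 1 0 0 (1 + pivX X i) := by
    ext (i | i) (j | j) <;> simp [stm, re, Matrix.one_apply, w', mkU]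
  have e1 : (1 + (fromBlocks 0 0 lc 0 :
      Matrix (Unit ⊕ {x : κ // x ≠ i}) (Unit ⊕ {x : κ // x ≠ i}) R)) = fromBlocks 1 0 lc 1 := by
    rw [← Matrix.fromBlocks_one, Matrix.fromBlocks_add]; simp
  have e3 : (1 + (fromBlocks 0 ru 0 0 :
      Matrix (Unit ⊕ {x : κ // x ≠ i}) (Unit ⊕ {x : κ // x ≠ i}) R)) = fromBlocks 1 ru 0 1 := by
    rw [← Matrix.fromBlocks_one, Matrix.fromBlocks_add]; simp
  rw [e1, e2, e3, Matrix.fromBlocks_multiply, Matrix.fromBlocks_multiply]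
  rw [← Matrix.submatrix_id_id (1 + X), ← (spl i).self_comp_symm, ← Matrix.submatrix_submatrix]
  congr 1
  ext (a | a) (b | b)
  · simp [spl, hi]
  · have : i ≠ (b : κ) := b.2.symm
    simp [spl, this, hru]
  · have : (a : κ) ≠ i := a.2
    simp [spl, this, hlc]
  · simp [spl, Matrix.one_apply, Matrix.mul_apply, pivX, Subtype.ext_iff]
    rw [hlc, hru]
    abel

end ring

section adj

variable {Γ : Type} [Group Γ] {κ : Type} [Fintype κ] [DecidableEq κ]

/-- the automorphism `x ↦ (x*)⁻¹` of the general linear group -/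
noncomputable def adU (κ : Type) [Fintype κ] [DecidableEq κ] :
    (Matrix κ κ (MonoidAlgebra ℤ Γ))ˣ →* (Matrix κ κ (MonoidAlgebra ℤ Γ))ˣ where
  toFun x :=
    { val := adj (↑x⁻¹ : Matrix κ κ (MonoidAlgebra ℤ Γ))
      inv := adj (x : Matrix κ κ (MonoidAlgebra ℤ Γ))
      val_inv := by rw [← adj_mul, Units.mul_inv, adj_one]
      inv_val := by rw [← adj_mul, Units.inv_mul, adj_one] }
  map_one' := by
    apply Units.ext
    change adj ((1 : (Matrix κ κ (MonoidAlgebra ℤ Γ))ˣ)⁻¹ : (Matrix κ κ (MonoidAlgebra ℤ Γ))ˣ).val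
      = 1
    rw [inv_one]
    exact adj_one
  map_mul' x y := by
    apply Units.ext
    change adj ((x * y)⁻¹ : (Matrix κ κ (MonoidAlgebra ℤ Γ))ˣ).val
      = adj (x⁻¹ : (Matrix κ κ (MonoidAlgebra ℤ Γ))ˣ).val
        * adj (y⁻¹ : (Matrix κ κ (MonoidAlgebra ℤ Γ))ˣ).val
    rw [_root_.mul_inv_rev, Units.val_mul, adj_mul]

theorem adU_val (x : (Matrix κ κ (MonoidAlgebra ℤ Γ))ˣ) :
    (adU κ x : Matrix κ κ (MonoidAlgebra ℤ Γ))
      = adj (↑x⁻¹ : Matrix κ κ (MonoidAlgebra ℤ Γ)) := rfl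

theorem adU_mem (x : (Matrix κ κ (MonoidAlgebra ℤ Γ))ˣ) (hx : x ∈ HH (TU Γ) κ) :
    adU κ x ∈ HH (TU Γ) κ := by
  refine map_HH_le (TU Γ) (TU Γ) (adU κ) (fun i u hu => ?_) x hx
  obtain ⟨g, ε, h⟩ := hu
  have h2 := (TU Γ).inv_mem ⟨g, ε, h⟩
  have h3 : (u⁻¹ : (MonoidAlgebra ℤ Γ)ˣ) = MonoidAlgebra.single g⁻¹ (ε : ℤ) := by
    apply Units.inv_eq_of_mul_eq_one_left
    rw [h, MonoidAlgebra.single_mul_single, inv_mul_cancel, MonoidAlgebra.one_def]
    congr 1
    rw [← Units.val_mul]; simp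
  have h4 : adU κ (Units.map (dgm i) u) = Units.map (dgm i) u := by
    apply Units.ext
    rw [adU_val, ← map_inv]
    change adj (dgm i ((u⁻¹ : (MonoidAlgebra ℤ Γ)ˣ) : MonoidAlgebra ℤ Γ))
      = dgm i (u : MonoidAlgebra ℤ Γ)
    rw [h3, h]
    ext1 a b
    rw [adj_apply, dgm_apply, dgm_apply, Matrix.diagonal_apply, Matrix.diagonal_apply]
    by_cases hab : a = b
    · subst hab
      rw [if_pos rfl, if_pos rfl]
      by_cases ha : a = i
      · subst ha; simp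
      · simp [Function.update_of_ne ha]
    · rw [if_neg hab, if_neg (Ne.symm hab), bar_zero]
  rw [h4]
  exact dgm_mem_HH (TU Γ) i u ⟨g, ε, h⟩

theorem TT_adU (x : (Matrix κ κ (MonoidAlgebra ℤ Γ))ˣ) (hx : TT (TU Γ) x) :
    TT (TU Γ) (adU κ x) := by
  obtain ⟨μ, i1, i2, h1⟩ := hx
  refine ⟨μ, i1, i2, ?_⟩
  have h2 := adU_mem _ h1
  convert h2 using 1
  apply Units.ext
  rw [adU_val, ← map_inv]
  change fromBlocks (adU κ x : Matrix κ κ (MonoidAlgebra ℤ Γ)) 0 0 1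
    = adj (fromBlocks (↑x⁻¹ : Matrix κ κ (MonoidAlgebra ℤ Γ)) 0 0 1)
  rw [adj_fromBlocks, adj_zero, adj_zero, adj_one, adU_val]

/-- adjoint inverses of stably trivial matrices -/
theorem Tm_adj (X Z : Matrix κ κ (MonoidAlgebra ℤ Γ)) (z1 : X - Z = X * Z) (z2 : X - Z = Z * X)
    (h : Tm (TU Γ) (1 + -adj Z)) : Tm (TU Γ) (1 + X) := by
  intro w hw
  have h1 : w = mkU X Z z1 z2 := Units.ext hw
  have h2 : TT (TU Γ) (adU κ w) := by
    apply h
    rw [adU_val, h1]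
    change adj (1 - Z) = _
    rw [adj_sub, adj_one]; abel
  have h3 := TT_adU _ h2
  convert h3 using 1
  apply Units.ext
  rw [adU_val]
  change (w : Matrix κ κ (MonoidAlgebra ℤ Γ)) = adj (adj (w : Matrix κ κ (MonoidAlgebra ℤ Γ)))
  rw [adj_adj]

end adj

end Pool.Agent.Y75.Th
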